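import Pool.Agent.TH505.OCDC.Cover

set_option autoImplicit false

/-!
Five directed even subgraphs from one flow and three auxiliary integer flows.
-/

namespace Pool.Agent.TH505.SC

open Finset
open Pool.Agent.TH505.OCDC

variable {V : Type}

/-- an orientable five cycle double cover, as five conservative functions with values in
`{-1, 0, 1}` -/
def Five [Fintype V] (G : SimpleGraph V) (g : Fin 5 → V → V → ℤ) : Prop :=
  (∀ i u v, g i v u = - g i u v) ∧ (∀ i u, ∑ w, g i u w = 0) ∧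
  (∀ i u v, g i u v = 0 ∨ g i u v = 1 ∨ g i u v = -1) ∧ (∀ i u v, ¬ G.Adj u v → g i u v = 0) ∧
  ∀ u v, G.Adj u v → ∃! i, g i u v = 1

/-- the five numerators -/
def Nf (x p0 p1 p2 : ℤ) : Fin 5 → ℤ
  | 0 => 4 * x
  | 1 => -x + p0 + p1 + p2
  | 2 => -x + p0 - p1 - p2
  | 3 => -x - p0 + p1 - p2
  | 4 => -x - p0 - p1 + p2

/-- the local condition -/
def Loc (x p0 p1 p2 : ℤ) : Prop :=
  ((x = 1 ∨ x = -1) ∧ (p0 = 1 ∨ p0 = -1) ∧ (p1 = 1 ∨ p1 = -1) ∧ (p2 = 1 ∨ p2 = -1) ∧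
    x * p0 * p1 * p2 = -1) ∨
  (x = 0 ∧ ((p0 = 0 ∧ (p1 = 2 ∨ p1 = -2) ∧ (p2 = 2 ∨ p2 = -2)) ∨
    (p1 = 0 ∧ (p0 = 2 ∨ p0 = -2) ∧ (p2 = 2 ∨ p2 = -2)) ∨
    (p2 = 0 ∧ (p0 = 2 ∨ p0 = -2) ∧ (p1 = 2 ∨ p1 = -2))))

def Res (f : Fin 5 → ℤ) : Prop :=
  (∀ i, f i = 4 * (f i / 4) ∧ (f i / 4 = 0 ∨ f i / 4 = 1 ∨ f i / 4 = -1)) ∧
  (∃ i, f i / 4 = 1 ∧ ∀ k, f k / 4 = 1 → k = i)

instance (f : Fin 5 → ℤ) : Decidable (Res f) := by unfold Res; infer_instance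

lemma loc_res (x p0 p1 p2 : ℤ) (h : Loc x p0 p1 p2) : Res (Nf x p0 p1 p2) := by
  rcases h with ⟨hx, h0, h1, h2, h3⟩ | ⟨hx, h⟩
  · rcases hx with rfl | rfl <;> rcases h0 with rfl | rfl <;> rcases h1 with rfl | rfl <;>
      rcases h2 with rfl | rfl <;> first | (exfalso; norm_num at h3; done) | decide
  · subst hx
    rcases h with ⟨rfl, h1, h2⟩ | ⟨rfl, h1, h2⟩ | ⟨rfl, h1, h2⟩ <;> rcases h1 with rfl | rfl <;>
      rcases h2 with rfl | rfl <;> decide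

theorem assemble [Fintype V] (G : SimpleGraph V) (X P0 P1 P2 : V → V → ℤ)
    (aX : ∀ u v, X v u = - X u v) (a0 : ∀ u v, P0 v u = - P0 u v)
    (a1 : ∀ u v, P1 v u = - P1 u v) (a2 : ∀ u v, P2 v u = - P2 u v)
    (cX : ∀ u, ∑ w, X u w = 0) (c0 : ∀ u, ∑ w, P0 u w = 0) (c1 : ∀ u, ∑ w, P1 u w = 0)
    (c2 : ∀ u, ∑ w, P2 u w = 0)
    (hl : ∀ u v, G.Adj u v → Loc (X u v) (P0 u v) (P1 u v) (P2 u v))
    (hz : ∀ u v, ¬ G.Adj u v → X u v = 0 ∧ P0 u v = 0 ∧ P1 u v = 0 ∧ P2 u v = 0) :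
    Five G (fun i u v => Nf (X u v) (P0 u v) (P1 u v) (P2 u v) i / 4) := by
  have hz' : ∀ i u v, ¬ G.Adj u v → Nf (X u v) (P0 u v) (P1 u v) (P2 u v) i = 0 := by
    intro i u v h
    obtain ⟨h1, h2, h3, h4⟩ := hz u v h
    rw [h1, h2, h3, h4]
    fin_cases i <;> simp [Nf]
  have hdiv : ∀ i u v, Nf (X u v) (P0 u v) (P1 u v) (P2 u v) i =
      4 * (Nf (X u v) (P0 u v) (P1 u v) (P2 u v) i / 4) := by
    intro i u v
    by_cases h : G.Adj u v
    · exact ((loc_res _ _ _ _ (hl u v h)).1 i).1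
    · rw [hz' i u v h]; norm_num
  have hanti : ∀ i u v, Nf (X v u) (P0 v u) (P1 v u) (P2 v u) i =
      - Nf (X u v) (P0 u v) (P1 u v) (P2 u v) i := by
    intro i u v
    rw [aX u v, a0 u v, a1 u v, a2 u v]
    fin_cases i <;> simp only [Nf] <;> ring
  have hcons : ∀ i u, ∑ w, Nf (X u w) (P0 u w) (P1 u w) (P2 u w) i = 0 := by
    intro i u
    fin_cases i <;> simp only [Nf, Finset.sum_add_distrib, Finset.sum_sub_distrib,
      Finset.sum_neg_distrib, ← Finset.mul_sum, cX u, c0 u, c1 u, c2 u] <;> norm_num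
  refine ⟨?_, ?_, ?_, ?_, ?_⟩
  · intro i u v
    have h1 := hdiv i u v
    have h2 := hdiv i v u
    have h3 := hanti i u v
    show Nf (X v u) (P0 v u) (P1 v u) (P2 v u) i / 4 = - (Nf (X u v) (P0 u v) (P1 u v) (P2 u v) i / 4)
    omega
  · intro i u
    have h1 := hcons i u
    rw [Finset.sum_congr rfl (fun w _ => hdiv i u w), ← Finset.mul_sum] at h1
    show ∑ w, Nf (X u w) (P0 u w) (P1 u w) (P2 u w) i / 4 = 0
    omega
  · intro i u v
    by_cases h : G.Adj u v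
    · exact ((loc_res _ _ _ _ (hl u v h)).1 i).2
    · left
      show Nf (X u v) (P0 u v) (P1 u v) (P2 u v) i / 4 = 0
      rw [hz' i u v h]; norm_num
  · intro i u v h
    show Nf (X u v) (P0 u v) (P1 u v) (P2 u v) i / 4 = 0
    rw [hz' i u v h]; norm_num
  · intro u v h
    obtain ⟨i, hi1, hi2⟩ := (loc_res _ _ _ _ (hl u v h)).2
    exact ⟨i, hi1, hi2⟩

/-- The five flows give a decomposition of the associated digraph into directed cycles. -/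
theorem Five.decomp [Fintype V] {G : SimpleGraph V} {g : Fin 5 → V → V → ℤ} (h : Five G g) :
    ∃ C : List (Σ v : V, G.Walk v v), (∀ c ∈ C, c.2.IsCycle) ∧
      ∀ u v, G.Adj u v → tot C u v = 1 := by
  obtain ⟨h1, h2, h3, h4, h5⟩ := h
  obtain ⟨C, hC1, hC2⟩ := flows_decomp (G := G) (Finset.univ : Finset (Fin 5)).toList g h1 h3
    (fun i u v hne => by
      by_contra h'
      exact hne (h4 i u v h')) h2
  refine ⟨C, hC1, fun u v huv => ?_⟩
  rw [hC2, Finset.sum_map_toList]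
  obtain ⟨i, hi1, hi2⟩ := h5 u v huv
  rw [Finset.sum_eq_single i]
  · exact ind_pos hi1
  · intro k _ hk
    exact ind_neg (fun h' => hk (hi2 k h'))
  · intro h'; exact absurd (mem_univ _) h'

end Pool.Agent.TH505.SC
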