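import Pool.Agent.TH505.SC.Words

set_option autoImplicit false

/-!
The kernel check of the finite part.
-/

namespace Pool.Agent.TH505.SC

theorem c3a : allW 3 (fun l => chk1 3 (wf l)) = true := by decide +kernel
theorem c4a : allW 4 (fun l => chk1 4 (wf l)) = true := by decide +kernel
theorem c5a : allW 5 (fun l => chk1 5 (wf l)) = true := by decide +kernel
theorem c6a : allW 6 (fun l => chk1 6 (wf l)) = true := by decide +kernel
theorem c6b : allW 6 (fun l => chk2 6 (wf l)) = true := by decide +kernel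

/-- words -/
def IsWord (n : ℕ) (a : ℕ → ℕ) : Prop := (∀ i, i < n → a i < 3) ∧ ∀ i, n ≤ i → a i = 0

lemma IsWord.eq_wf {n : ℕ} {a : ℕ → ℕ} (h : IsWord n a) :
    ∃ l : List ℕ, l.length = n ∧ (∀ x ∈ l, x < 3) ∧ a = wf l := by
  refine ⟨List.ofFn (fun i : Fin n => a i), by simp, ?_, ?_⟩
  · intro x hx
    rw [List.mem_ofFn] at hx
    obtain ⟨i, hi⟩ := hx
    rw [← hi]
    exact h.1 i i.2
  · funext i
    unfold wf
    by_cases hi : i < n
    · rw [List.getD_eq_getElem _ _ (by simpa using hi)]
      simp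
    · rw [List.getD_eq_default _ _ (by simpa using hi)]
      exact h.2 i (by omega)

lemma IsWord.sw {n : ℕ} {a : ℕ → ℕ} (h : IsWord n a) {j t u : ℕ} (hj : j < 3) (ht : t < n)
    (hu : u < n) (hat : a t ≠ j) (hau : a u ≠ j) : IsWord n (sw a j t u) := by
  have h1 := h.1 t ht
  have h2 := h.1 u hu
  constructor
  · intro i hi
    unfold SC.sw
    by_cases hit : i = t
    · simp only [hit, beq_self_eq_true, Bool.true_or, cond_true]
      omega
    · by_cases hiu : i = u
      · simp only [hiu, beq_self_eq_true, Bool.or_true, cond_true]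
        omega
      · have e1 : (i == t) = false := by simpa using hit
        have e2 : (i == u) = false := by simpa using hiu
        rw [e1, e2]
        exact h.1 i hi
  · intro i hi
    unfold SC.sw
    have e1 : (i == t) = false := by simp; omega
    have e2 : (i == u) = false := by simp; omega
    rw [e1, e2]
    exact h.2 i hi

lemma chk1_all {n : ℕ} (h3 : 3 ≤ n) (h6 : n ≤ 6) {a : ℕ → ℕ} (h : IsWord n a) :
    chk1 n a = true := by
  obtain ⟨l, hl1, hl2, rfl⟩ := h.eq_wf
  interval_cases n
  · exact allW_sound 3 _ c3a l hl1 hl2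
  · exact allW_sound 4 _ c4a l hl1 hl2
  · exact allW_sound 5 _ c5a l hl1 hl2
  · exact allW_sound 6 _ c6a l hl1 hl2

lemma chk2_all {n : ℕ} (h3 : 3 ≤ n) (h6 : n ≤ 6) {a : ℕ → ℕ} (h : IsWord n a) :
    chk2 n a = true := by
  by_cases hn : n = 6
  · subst hn
    obtain ⟨l, hl1, hl2, rfl⟩ := h.eq_wf
    exact allW_sound 6 _ c6b l hl1 hl2
  · have : pat n a = true := by
      unfold pat
      have : (n == 6) = false := by simpa using hn
      rw [this]
      rfl
    unfold chk2
    rw [this]
    rfl

lemma win_one {n : ℕ} (h3 : 3 ≤ n) (h6 : n ≤ 6) {a : ℕ → ℕ} (h : IsWord n a)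
    (hp : ext n a = true ∨ pat n a = true) : Win n 1 a := by
  rcases hp with hp | hp
  · exact Or.inl hp
  · have h1 := chk1_all h3 h6 h
    unfold chk1 at h1
    rw [hp] at h1
    simp only [Bool.not_true, Bool.false_or, Bool.or_eq_true] at h1
    rcases h1 with h1 | h1
    · exact Or.inl h1
    · exact Or.inr (fun m hm => good_sound h1 m hm)

theorem words_win {n : ℕ} (h3 : 3 ≤ n) (h6 : n ≤ 6) {a : ℕ → ℕ} (h : IsWord n a) :
    Win n 2 a := by
  have h1 := chk2_all h3 h6 h
  unfold chk2 at h1
  simp only [Bool.or_eq_true] at h1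
  rcases h1 with h1 | h1 | h1
  · exact Or.inl (win_one h3 h6 h (Or.inr h1))
  · exact Or.inl (win_one h3 h6 h (Or.inl h1))
  · right
    intro m hm
    rcases good_sound h1 m hm with h2 | ⟨j, i, hj, hi, hai, h2⟩
    · exact Or.inl h2
    · right
      refine ⟨j, i, hj, hi, hai, ?_⟩
      rw [Bool.or_eq_true] at h2
      have h4 := hm j hj i hi hai
      exact win_one h3 h6 (h.sw hj hi h4.1 hai h4.2.1) h2

end Pool.Agent.TH505.SC
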