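import Pool.Agent.TH505.SC.Leaf

set_option autoImplicit false

/-!
A circuit in a cubic graph, and integer functions supported on it.
-/

namespace Pool.Agent.TH505.SC

open Finset
open Pool.Agent.TH505.OCDC

variable {V : Type}

/-- `q` runs periodically around a circuit of length `n` of `G` -/
structure Circ (G : SimpleGraph V) (n : ℕ) (q : ℕ → V) : Prop where
  three : 3 ≤ n
  per : ∀ i, q (i + n) = q i
  inj : ∀ i j, i < n → j < n → q i = q j → i = j
  adj : ∀ i, G.Adj (q i) (q (i + 1))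

/-- edges of the circuit -/
def CE (q : ℕ → V) (u v : V) : Prop := ∃ i, (u = q i ∧ v = q (i + 1)) ∨ (u = q (i + 1) ∧ v = q i)

lemma CE.symm {q : ℕ → V} {u v : V} (h : CE q u v) : CE q v u := by
  obtain ⟨i, hi⟩ := h
  exact ⟨i, by tauto⟩

/-- the graph off the circuit -/
def Off (G : SimpleGraph V) (q : ℕ → V) : SimpleGraph V where
  Adj u v := G.Adj u v ∧ ¬ CE q u v
  symm := ⟨fun _ _ h => ⟨h.1.symm, fun h' => h.2 h'.symm⟩⟩
  loopless := ⟨fun _ h => h.1.ne rfl⟩

lemma off_adj {G : SimpleGraph V} {q : ℕ → V} {u v : V} :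
    (Off G q).Adj u v ↔ G.Adj u v ∧ ¬ CE q u v := Iff.rfl

section
variable {G : SimpleGraph V} {n : ℕ} {q : ℕ → V} (hq : Circ G n q)
include hq

lemma Circ.pos : 0 < n := by have := hq.three; omega

lemma Circ.per_mul (i k : ℕ) : q (i + n * k) = q i := by
  induction k with
  | zero => simp
  | succ k ih => rw [Nat.mul_succ, ← Nat.add_assoc, hq.per, ih]

lemma Circ.q_mod (i : ℕ) : q i = q (i % n) := by
  conv_lhs => rw [← Nat.mod_add_div i n]
  exact hq.per_mul _ _

lemma Circ.eq_iff {i j : ℕ} : q i = q j ↔ i % n = j % n := by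
  constructor
  · intro h
    rw [hq.q_mod i, hq.q_mod j] at h
    exact hq.inj _ _ (Nat.mod_lt _ hq.pos) (Nat.mod_lt _ hq.pos) h
  · intro h
    rw [hq.q_mod i, hq.q_mod j, h]

/-- previous index -/
lemma Circ.prev (i : ℕ) : q (i + n - 1 + 1) = q i := by
  have := hq.three
  rw [show i + n - 1 + 1 = i + n by omega]
  exact hq.per i

lemma Circ.succ_congr {i j : ℕ} (h : q i = q j) : q (i + 1) = q (j + 1) := by
  rw [hq.eq_iff] at h ⊢
  exact Nat.ModEq.add_right 1 h

lemma Circ.pred_congr {i j : ℕ} (h : q (i + 1) = q (j + 1)) : q i = q j := by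
  rw [hq.eq_iff] at h ⊢
  exact Nat.ModEq.add_right_cancel' 1 h

lemma Circ.ce_iff (i : ℕ) (w : V) : CE q (q i) w ↔ w = q (i + 1) ∨ w = q (i + n - 1) := by
  constructor
  · rintro ⟨k, ⟨h1, h2⟩ | ⟨h1, h2⟩⟩
    · left
      rw [h2]
      exact (hq.succ_congr h1).symm
    · right
      rw [h2]
      apply hq.pred_congr
      rw [hq.prev, h1]
  · rintro (h | h)
    · exact ⟨i, Or.inl ⟨rfl, h⟩⟩
    · exact ⟨i + n - 1, Or.inr ⟨(hq.prev i).symm, h⟩⟩

lemma Circ.next_ne_prev (i : ℕ) : q (i + 1) ≠ q (i + n - 1) := by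
  intro h
  have h3 := hq.three
  have h1 : q (i + 2) = q i := by
    have := hq.succ_congr h
    rw [hq.prev] at this
    exact this
  rw [hq.eq_iff] at h1
  have h2 : (i + 2) ≡ i [MOD n] := h1
  have h4 : 2 ≡ 0 [MOD n] := by
    apply Nat.ModEq.add_left_cancel' i
    simpa using h2
  have h5 : 2 % n = 0 % n := h4
  rw [Nat.mod_eq_of_lt (by omega), Nat.zero_mod] at h5
  omega

lemma Circ.adj_prev (i : ℕ) : G.Adj (q i) (q (i + n - 1)) := by
  have := hq.adj (i + n - 1)
  rw [hq.prev] at this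
  exact this.symm

variable [Fintype V]

omit hq in
lemma nb_off_of_ne {v : V} (h : ∀ i, v ≠ q i) : nb (Off G q) v = nb G v := by
  ext w
  rw [mem_nb, mem_nb, off_adj]
  constructor
  · exact fun h => h.1
  · intro hw
    refine ⟨hw, ?_⟩
    rintro ⟨i, ⟨h1, _⟩ | ⟨h1, _⟩⟩
    · exact h _ h1
    · exact h _ h1

lemma nb_off_card (h3 : ∀ v, (nb G v).card = 3) (i : ℕ) : (nb (Off G q) (q i)).card = 1 := by
  classical
  have h1 : nb (Off G q) (q i) = ((nb G (q i)).erase (q (i + 1))).erase (q (i + n - 1)) := by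
    ext w
    rw [mem_nb, off_adj, hq.ce_iff, Finset.mem_erase, Finset.mem_erase, mem_nb]
    tauto
  rw [h1, Finset.card_erase_of_mem, Finset.card_erase_of_mem, h3]
  · rw [mem_nb]; exact hq.adj i
  · rw [Finset.mem_erase, mem_nb]
    exact ⟨(hq.next_ne_prev i).symm, hq.adj_prev i⟩

end

open scoped Classical in
/-- the function on ordered pairs with value `s i` on `(q i, q (i + 1))` -/
noncomputable def cf (n : ℕ) (q : ℕ → V) (s : ℕ → ℤ) (u v : V) : ℤ :=
  ∑ i ∈ range n, ((if u = q i ∧ v = q (i + 1) then s i else 0) -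
    (if u = q (i + 1) ∧ v = q i then s i else 0))

open scoped Classical in
/-- the symmetric version -/
noncomputable def cg (n : ℕ) (q : ℕ → V) (b : ℕ → ℕ) (u v : V) : ℕ :=
  ∑ i ∈ range n, ((if u = q i ∧ v = q (i + 1) then b i else 0) +
    (if u = q (i + 1) ∧ v = q i then b i else 0))

lemma cf_anti (n : ℕ) (q : ℕ → V) (s : ℕ → ℤ) (u v : V) : cf n q s v u = - cf n q s u v := by
  classical
  unfold cf
  rw [← Finset.sum_neg_distrib]
  apply Finset.sum_congr rfl
  intro i _
  have e1 : (v = q i ∧ u = q (i + 1)) ↔ (u = q (i + 1) ∧ v = q i) := and_comm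
  have e2 : (v = q (i + 1) ∧ u = q i) ↔ (u = q i ∧ v = q (i + 1)) := and_comm
  simp only [e1, e2]
  ring

lemma cg_symm (n : ℕ) (q : ℕ → V) (b : ℕ → ℕ) (u v : V) : cg n q b v u = cg n q b u v := by
  classical
  unfold cg
  apply Finset.sum_congr rfl
  intro i _
  have e1 : (v = q i ∧ u = q (i + 1)) ↔ (u = q (i + 1) ∧ v = q i) := and_comm
  have e2 : (v = q (i + 1) ∧ u = q i) ↔ (u = q i ∧ v = q (i + 1)) := and_comm
  simp only [e1, e2]
  ring

lemma cf_zero {n : ℕ} {q : ℕ → V} {s : ℕ → ℤ} {u v : V} (h : ¬ CE q u v) : cf n q s u v = 0 := by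
  classical
  unfold cf
  apply Finset.sum_eq_zero
  intro i _
  rw [if_neg (fun h' => h ⟨i, Or.inl h'⟩), if_neg (fun h' => h ⟨i, Or.inr h'⟩), sub_zero]

lemma cg_zero {n : ℕ} {q : ℕ → V} {b : ℕ → ℕ} {u v : V} (h : ¬ CE q u v) : cg n q b u v = 0 := by
  classical
  unfold cg
  apply Finset.sum_eq_zero
  intro i _
  rw [if_neg (fun h' => h ⟨i, Or.inl h'⟩), if_neg (fun h' => h ⟨i, Or.inr h'⟩), add_zero]

section
variable {G : SimpleGraph V} {n : ℕ} {q : ℕ → V} (hq : Circ G n q)
include hq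

lemma Circ.not_rev (i k : ℕ) : ¬ (q i = q (k + 1) ∧ q (i + 1) = q k) := by
  rintro ⟨h1, h2⟩
  have h3 := hq.next_ne_prev i
  apply h3
  rw [h2]
  apply hq.pred_congr
  rw [hq.prev, h1]

lemma cf_val (s : ℕ → ℤ) {k : ℕ} (hk : k < n) : cf n q s (q k) (q (k + 1)) = s k := by
  classical
  unfold cf
  rw [Finset.sum_eq_single k]
  · rw [if_pos ⟨rfl, rfl⟩, if_neg, sub_zero]
    exact hq.not_rev k k
  · intro i hi hik
    rw [Finset.mem_range] at hi
    rw [if_neg, if_neg, sub_zero]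
    · exact hq.not_rev k i
    · rintro ⟨h, _⟩
      exact hik (hq.inj _ _ hi hk h.symm)
  · intro h
    exact absurd (Finset.mem_range.2 hk) h

lemma cg_val (b : ℕ → ℕ) {k : ℕ} (hk : k < n) : cg n q b (q k) (q (k + 1)) = b k := by
  classical
  unfold cg
  rw [Finset.sum_eq_single k]
  · rw [if_pos ⟨rfl, rfl⟩, if_neg, add_zero]
    exact hq.not_rev k k
  · intro i hi hik
    rw [Finset.mem_range] at hi
    rw [if_neg, if_neg, add_zero]
    · exact hq.not_rev k i
    · rintro ⟨h, _⟩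
      exact hik (hq.inj _ _ hi hk h.symm)
  · intro h
    exact absurd (Finset.mem_range.2 hk) h

/-- every circuit edge is `q k, q (k + 1)` with `k < n` in one of the two orders -/
lemma Circ.ce_cases {u v : V} (h : CE q u v) :
    ∃ k, k < n ∧ ((u = q k ∧ v = q (k + 1)) ∨ (u = q (k + 1) ∧ v = q k)) := by
  obtain ⟨i, hi⟩ := h
  refine ⟨i % n, Nat.mod_lt _ hq.pos, ?_⟩
  have h1 : q i = q (i % n) := hq.q_mod i
  have h2 : q (i + 1) = q (i % n + 1) := hq.succ_congr h1
  rw [← h1, ← h2]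
  exact hi

/-- previous index below `n` -/
def pv (n i : ℕ) : ℕ := if i = 0 then n - 1 else i - 1

lemma Circ.pv_lt {i : ℕ} (hi : i < n) : pv n i < n := by
  have := hq.three
  unfold pv
  split_ifs <;> omega

lemma Circ.q_pv {i : ℕ} (hi : i < n) : q (pv n i + 1) = q i := by
  have := hq.three
  unfold pv
  split_ifs with h
  · rw [show n - 1 + 1 = 0 + n by omega, hq.per, h]
  · rw [show i - 1 + 1 = i by omega]

lemma cf_sum [Fintype V] (s : ℕ → ℤ) {k : ℕ} (hk : k < n) :
    ∑ w, cf n q s (q k) w = s k - s (pv n k) := by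
  classical
  unfold cf
  rw [Finset.sum_comm]
  have h1 : ∀ i ∈ range n, ∑ w, ((if q k = q i ∧ w = q (i + 1) then s i else 0) -
      (if q k = q (i + 1) ∧ w = q i then s i else 0)) =
      (if i = k then s i else 0) - (if i = pv n k then s i else 0) := by
    intro i hi
    rw [Finset.mem_range] at hi
    rw [Finset.sum_sub_distrib]
    congr 1
    · by_cases h : i = k
      · subst h
        simp
      · have h2 : q k ≠ q i := fun h' => h (hq.inj _ _ hi hk h'.symm)
        simp [h, h2]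
    · by_cases h : i = pv n k
      · have h2 : q k = q (i + 1) := by rw [h, hq.q_pv hk]
        simp [h2, h]
      · have h2 : q k ≠ q (i + 1) := by
          intro h'
          apply h
          apply hq.inj _ _ hi (hq.pv_lt hk)
          apply hq.pred_congr
          rw [hq.q_pv hk, h']
        simp [h, h2]
  rw [Finset.sum_congr rfl h1, Finset.sum_sub_distrib, Finset.sum_ite_eq' (range n) k,
    Finset.sum_ite_eq' (range n) (pv n k), if_pos (Finset.mem_range.2 hk),
    if_pos (Finset.mem_range.2 (hq.pv_lt hk))]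

omit hq in
lemma cf_sum_off [Fintype V] (s : ℕ → ℤ) {v : V} (hv : ∀ i, v ≠ q i) :
    ∑ w, cf n q s v w = 0 := by
  apply Finset.sum_eq_zero
  intro w _
  apply cf_zero
  rintro ⟨i, ⟨h1, _⟩ | ⟨h1, _⟩⟩
  · exact hv _ h1
  · exact hv _ h1

end

end Pool.Agent.TH505.SC
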