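import Pool.Agent.TH505.SC.Circuit
import Pool.Agent.TH505.SC.Assemble
import Pool.Agent.TH505.SC.Check

set_option autoImplicit false

/-!
Colourings off a short circuit of a cubic graph.
-/

namespace Pool.Agent.TH505.SC

open Finset
open Pool.Agent.TH505.OCDC

variable {V : Type}

/-- proper edge colourings with the colours `0, 1, 2` -/
structure Col (H : SimpleGraph V) (c : Sym2 V → ℕ) : Prop where
  lt : ∀ u v, H.Adj u v → c s(u, v) < 3
  proper : ∀ u v w, H.Adj u v → H.Adj u w → v ≠ w → c s(u, v) ≠ c s(u, w)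

/-- the edges of colour different from `j` -/
def Jg (H : SimpleGraph V) (c : Sym2 V → ℕ) (j : ℕ) : SimpleGraph V where
  Adj u v := H.Adj u v ∧ c s(u, v) ≠ j
  symm := ⟨fun u v h => ⟨h.1.symm, by rw [Sym2.eq_swap]; exact h.2⟩⟩
  loopless := ⟨fun _ h => h.1.ne rfl⟩

lemma jg_adj {H : SimpleGraph V} {c : Sym2 V → ℕ} {j : ℕ} {u v : V} :
    (Jg H c j).Adj u v ↔ H.Adj u v ∧ c s(u, v) ≠ j := Iff.rfl

lemma jg_card3 [Fintype V] {H : SimpleGraph V} {c : Sym2 V → ℕ} (hc : Col H c) {j : ℕ}
    (hj : j < 3) {v : V} (h3 : (nb H v).card = 3) : (nb (Jg H c j) v).card = 2 := by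
  classical
  obtain ⟨x, y, z, hxy, hxz, hyz, hN⟩ := Finset.card_eq_three.1 h3
  have hmem : ∀ w, H.Adj v w ↔ w = x ∨ w = y ∨ w = z := by
    intro w
    rw [← mem_nb, hN]
    simp
  have hx : H.Adj v x := (hmem x).2 (Or.inl rfl)
  have hy : H.Adj v y := (hmem y).2 (Or.inr (Or.inl rfl))
  have hz : H.Adj v z := (hmem z).2 (Or.inr (Or.inr rfl))
  have c1 := hc.lt v x hx
  have c2 := hc.lt v y hy
  have c3 := hc.lt v z hz
  have c4 := hc.proper v x y hx hy hxy
  have c5 := hc.proper v x z hx hz hxz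
  have c6 := hc.proper v y z hy hz hyz
  have hcase : c s(v, x) = j ∨ c s(v, y) = j ∨ c s(v, z) = j := by omega
  have hset : ∀ w, w ∈ nb (Jg H c j) v ↔ (w = x ∨ w = y ∨ w = z) ∧ c s(v, w) ≠ j := by
    intro w
    rw [mem_nb, jg_adj, hmem]
  rcases hcase with h | h | h
  · have : nb (Jg H c j) v = {y, z} := by
      ext w
      rw [hset, Finset.mem_insert, Finset.mem_singleton]
      constructor
      · rintro ⟨h1 | h1 | h1, h2⟩
        · rw [h1] at h2; exact absurd h h2
        · exact Or.inl h1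
        · exact Or.inr h1
      · rintro (h1 | h1)
        · rw [h1]; exact ⟨Or.inr (Or.inl rfl), by omega⟩
        · rw [h1]; exact ⟨Or.inr (Or.inr rfl), by omega⟩
    rw [this, Finset.card_pair hyz]
  · have : nb (Jg H c j) v = {x, z} := by
      ext w
      rw [hset, Finset.mem_insert, Finset.mem_singleton]
      constructor
      · rintro ⟨h1 | h1 | h1, h2⟩
        · exact Or.inl h1
        · rw [h1] at h2; exact absurd h h2
        · exact Or.inr h1
      · rintro (h1 | h1)
        · rw [h1]; exact ⟨Or.inl rfl, by omega⟩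
        · rw [h1]; exact ⟨Or.inr (Or.inr rfl), by omega⟩
    rw [this, Finset.card_pair hxz]
  · have : nb (Jg H c j) v = {x, y} := by
      ext w
      rw [hset, Finset.mem_insert, Finset.mem_singleton]
      constructor
      · rintro ⟨h1 | h1 | h1, h2⟩
        · exact Or.inl h1
        · exact Or.inr h1
        · rw [h1] at h2; exact absurd h h2
      · rintro (h1 | h1)
        · rw [h1]; exact ⟨Or.inl rfl, by omega⟩
        · rw [h1]; exact ⟨Or.inr (Or.inl rfl), by omega⟩
    rw [this, Finset.card_pair hxy]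

lemma jg_single [Fintype V] {H : SimpleGraph V} {c : Sym2 V → ℕ} {j : ℕ} {v w : V}
    (h1 : nb H v = {w}) (hne : c s(v, w) ≠ j) : (nb (Jg H c j) v).card = 1 := by
  classical
  have hw : ∀ x, H.Adj v x ↔ x = w := by
    intro x
    rw [← mem_nb, h1, Finset.mem_singleton]
  have : nb (Jg H c j) v = {w} := by
    ext x
    rw [mem_nb, jg_adj, hw, Finset.mem_singleton]
    constructor
    · exact fun h => h.1
    · intro h
      rw [h]
      exact ⟨rfl, hne⟩
  rw [this, Finset.card_singleton]

lemma jg_none [Fintype V] {H : SimpleGraph V} {c : Sym2 V → ℕ} {j : ℕ} {v w : V}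
    (h1 : nb H v = {w}) (hne : c s(v, w) = j) : (nb (Jg H c j) v).card = 0 := by
  classical
  have hw : ∀ x, H.Adj v x ↔ x = w := by
    intro x
    rw [← mem_nb, h1, Finset.mem_singleton]
  rw [Finset.card_eq_zero]
  ext x
  rw [mem_nb, jg_adj, hw]
  constructor
  · rintro ⟨h2, h3⟩
    rw [h2] at h3
    exact absurd hne h3
  · intro h; simp at h

/-- Cubic graphs with a proper colouring by three colours. -/
theorem class_one [Fintype V] {G : SimpleGraph V} (h3 : ∀ v, (nb G v).card = 3) {c : Sym2 V → ℕ}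
    (hc : Col G c) : ∃ g, Five G g := by
  have hor : ∀ j, j < 3 → ∃ g : V → V → ℤ, (∀ u v, g v u = - g u v) ∧
      (∀ u v, (Jg G c j).Adj u v → g u v = 1 ∨ g u v = -1) ∧
      (∀ u v, ¬ (Jg G c j).Adj u v → g u v = 0) ∧ ∀ u, ∑ w, g u w = 0 := by
    intro j hj
    exact orient (Jg G c j) _ (fun u v => (Jg G c j).Adj u v) rfl (fun _ _ h => h)
      (fun _ _ h => h.symm) (by
        intro v
        rw [sum_ind_eq_card, jg_card3 hc hj (h3 v)]
        decide)
  obtain ⟨g0, a0, b0, z0, s0⟩ := hor 0 (by norm_num)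
  obtain ⟨g1, a1, b1, z1, s1⟩ := hor 1 (by norm_num)
  obtain ⟨g2, a2, b2, z2, s2⟩ := hor 2 (by norm_num)
  refine ⟨_, assemble G (fun _ _ => 0) (fun u v => 2 * g0 u v) (fun u v => 2 * g1 u v)
    (fun u v => 2 * g2 u v) (fun _ _ => by norm_num) (fun u v => by rw [a0]; ring)
    (fun u v => by rw [a1]; ring) (fun u v => by rw [a2]; ring) (fun _ => by simp)
    (fun u => by rw [← Finset.mul_sum, s0, mul_zero]) (fun u => by rw [← Finset.mul_sum, s1, mul_zero])
    (fun u => by rw [← Finset.mul_sum, s2, mul_zero]) ?_ ?_⟩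
  · intro u v huv
    right
    refine ⟨rfl, ?_⟩
    have hlt := hc.lt u v huv
    have hd : ∀ x : ℤ, (x = 1 ∨ x = -1) → (2 * x = 2 ∨ 2 * x = -2) := by
      rintro x (h | h) <;> rw [h] <;> norm_num
    have hcase : c s(u, v) = 0 ∨ c s(u, v) = 1 ∨ c s(u, v) = 2 := by omega
    rcases hcase with h | h | h
    · left
      refine ⟨?_, hd _ (b1 u v ⟨huv, by omega⟩), hd _ (b2 u v ⟨huv, by omega⟩)⟩
      show 2 * g0 u v = 0
      rw [z0 u v (fun h' => h'.2 h), mul_zero]
    · right; left
      refine ⟨?_, hd _ (b0 u v ⟨huv, by omega⟩), hd _ (b2 u v ⟨huv, by omega⟩)⟩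
      show 2 * g1 u v = 0
      rw [z1 u v (fun h' => h'.2 h), mul_zero]
    · right; right
      refine ⟨?_, hd _ (b0 u v ⟨huv, by omega⟩), hd _ (b1 u v ⟨huv, by omega⟩)⟩
      show 2 * g2 u v = 0
      rw [z2 u v (fun h' => h'.2 h), mul_zero]
  · intro u v huv
    refine ⟨rfl, ?_, ?_, ?_⟩
    · show 2 * g0 u v = 0
      rw [z0 u v (fun h' => huv h'.1), mul_zero]
    · show 2 * g1 u v = 0
      rw [z1 u v (fun h' => huv h'.1), mul_zero]
    · show 2 * g2 u v = 0
      rw [z2 u v (fun h' => huv h'.1), mul_zero]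

/-- the colour word around the circuit -/
noncomputable def W (n : ℕ) (q f : ℕ → V) (c : Sym2 V → ℕ) (i : ℕ) : ℕ :=
  if i < n then c s(q i, f i) else 0

section
variable [Fintype V] {G : SimpleGraph V} {n : ℕ} {q f : ℕ → V} (hq : Circ G n q)
  (h3 : ∀ v, (nb G v).card = 3) (hf : ∀ i, nb (Off G q) (q i) = {f i})
include hq h3 hf

omit hq h3 in
lemma off_f (i : ℕ) : (Off G q).Adj (q i) (f i) := by
  rw [← mem_nb, hf i]; simp

omit hq h3 in
lemma off_unique {i : ℕ} {w : V} (h : (Off G q).Adj (q i) w) : w = f i := by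
  rw [← mem_nb, hf i, Finset.mem_singleton] at h
  exact h

omit hq h3 in
lemma W_word {c : Sym2 V → ℕ} (hc : Col (Off G q) c) : IsWord n (W n q f c) := by
  constructor
  · intro i hi
    unfold W
    rw [if_pos hi]
    exact hc.lt _ _ (off_f hf i)
  · intro i hi
    unfold W
    rw [if_neg (by omega)]

omit hq in
lemma deg_cases {c : Sym2 V → ℕ} (hc : Col (Off G q) c) {j : ℕ} (hj : j < 3) (v : V)
    (hq : Circ G n q) :
    ((∀ i, v ≠ q i) ∧ (nb (Jg (Off G q) c j) v).card = 2) ∨
    ∃ i, i < n ∧ v = q i ∧ ((W n q f c i ≠ j ∧ (nb (Jg (Off G q) c j) v).card = 1) ∨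
      (W n q f c i = j ∧ (nb (Jg (Off G q) c j) v).card = 0)) := by
  by_cases h : ∃ i, v = q i
  · right
    obtain ⟨i, hi⟩ := h
    have hi' : v = q (i % n) := by rw [hi]; exact hq.q_mod i
    have hlt : i % n < n := Nat.mod_lt _ hq.pos
    refine ⟨i % n, hlt, hi', ?_⟩
    by_cases hW : W n q f c (i % n) = j
    · right
      refine ⟨hW, ?_⟩
      rw [hi']
      unfold W at hW
      rw [if_pos hlt] at hW
      exact jg_none (hf _) hW
    · left
      refine ⟨hW, ?_⟩
      rw [hi']
      unfold W at hW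
      rw [if_pos hlt] at hW
      exact jg_single (hf _) hW
  · left
    push Not at h
    refine ⟨h, jg_card3 hc hj ?_⟩
    rw [nb_off_of_ne h]
    exact h3 v

/-- The pairing of the leaves. -/
theorem pairing {c : Sym2 V → ℕ} (hc : Col (Off G q) c) {j : ℕ} (hj : j < 3) :
    ∃ m : ℕ → ℕ, Pairs n (W n q f c) j m ∧ ∀ i, i < n → W n q f c i ≠ j →
      (Jg (Off G q) c j).Reachable (q i) (q (m i)) ∧
      ∀ k, k < n → W n q f c k ≠ j → (Jg (Off G q) c j).Reachable (q i) (q k) →
        k = i ∨ k = m i := by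
  have h2 : ∀ v, (nb (Jg (Off G q) c j) v).card ≤ 2 := by
    intro v
    rcases deg_cases h3 hf hc hj v hq with ⟨_, h⟩ | ⟨i, _, _, ⟨_, h⟩ | ⟨_, h⟩⟩ <;> omega
  have hleaf : ∀ i, i < n → W n q f c i ≠ j → (nb (Jg (Off G q) c j) (q i)).card = 1 := by
    intro i hi hW
    unfold W at hW
    rw [if_pos hi] at hW
    exact jg_single (hf _) hW
  have hback : ∀ v, (nb (Jg (Off G q) c j) v).card = 1 → ∃ k, k < n ∧ v = q k ∧
      W n q f c k ≠ j := by
    intro v hv
    rcases deg_cases h3 hf hc hj v hq with ⟨_, h⟩ | ⟨i, hi, hvi, ⟨hW, h⟩ | ⟨_, h⟩⟩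
    · omega
    · exact ⟨i, hi, hvi, hW⟩
    · omega
  have key : ∀ i, ∃ k, i < n → W n q f c i ≠ j → k < n ∧ W n q f c k ≠ j ∧ k ≠ i ∧
      (Jg (Off G q) c j).Reachable (q i) (q k) ∧
      ∀ l, l < n → W n q f c l ≠ j → (Jg (Off G q) c j).Reachable (q i) (q l) →
        l = i ∨ l = k := by
    intro i
    by_cases hi : i < n ∧ W n q f c i ≠ j
    · obtain ⟨y, hy1, hy2, hy3, hy4⟩ := leaf_pair _ h2 (q i) (hleaf i hi.1 hi.2)
      obtain ⟨k, hk, hyk, hWk⟩ := hback y hy2
      refine ⟨k, fun _ _ => ⟨hk, hWk, ?_, ?_, ?_⟩⟩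
      · rintro rfl
        exact hy1 hyk
      · rw [← hyk]; exact hy3
      · intro l hl hWl hr
        rcases hy4 (q l) (hleaf l hl hWl) hr with h | h
        · left; exact hq.inj _ _ hl hi.1 h
        · right
          rw [hyk] at h
          exact hq.inj _ _ hl hk h
    · exact ⟨0, fun h1 h2 => absurd ⟨h1, h2⟩ hi⟩
  choose m hm using key
  refine ⟨m, ?_, ?_⟩
  · intro i hi hW
    obtain ⟨a1, a2, a3, a4, a5⟩ := hm i hi hW
    refine ⟨a1, a2, a3, ?_⟩
    obtain ⟨b1, b2, b3, b4, b5⟩ := hm (m i) a1 a2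
    rcases b5 i hi hW a4.symm with h | h
    · exact absurd h.symm a3
    · exact h.symm
  · intro i hi hW
    obtain ⟨a1, a2, a3, a4, a5⟩ := hm i hi hW
    exact ⟨a4, a5⟩

open scoped Classical in
/-- Switching the two other colours along a component. -/
theorem switch {c : Sym2 V → ℕ} (hc : Col (Off G q) c) {j : ℕ} (hj : j < 3) {m : ℕ → ℕ}
    (hm : Pairs n (W n q f c) j m)
    (hr : ∀ i, i < n → W n q f c i ≠ j →
      (Jg (Off G q) c j).Reachable (q i) (q (m i)) ∧
      ∀ k, k < n → W n q f c k ≠ j → (Jg (Off G q) c j).Reachable (q i) (q k) →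
        k = i ∨ k = m i) {i : ℕ} (hi : i < n) (hW : W n q f c i ≠ j) :
    ∃ c', Col (Off G q) c' ∧ W n q f c' = sw (W n q f c) j i (m i) := by
  let K : V → Prop := fun v => (Jg (Off G q) c j).Reachable (q i) v
  let c' : Sym2 V → ℕ := fun e => if c e ≠ j ∧ ∀ x ∈ e, K x then 3 - j - c e else c e
  have hval : ∀ u v, (Off G q).Adj u v →
      c' s(u, v) = if K u ∧ c s(u, v) ≠ j then 3 - j - c s(u, v) else c s(u, v) := by
    intro u v huv
    have e1 : (c s(u, v) ≠ j ∧ ∀ x ∈ s(u, v), K x) ↔ (K u ∧ c s(u, v) ≠ j) := by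
      constructor
      · intro h
        exact ⟨h.2 u (Sym2.mem_mk_left u v), h.1⟩
      · intro h
        refine ⟨h.2, ?_⟩
        intro x hx
        rw [Sym2.mem_iff] at hx
        rcases hx with rfl | rfl
        · exact h.1
        · have hadj : (Jg (Off G q) c j).Adj u x := ⟨huv, h.2⟩
          exact h.1.trans hadj.reachable
    show (if c s(u, v) ≠ j ∧ ∀ x ∈ s(u, v), K x then 3 - j - c s(u, v) else c s(u, v)) = _
    rw [if_congr e1 rfl rfl]
  refine ⟨c', ⟨?_, ?_⟩, ?_⟩
  · intro u v huv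
    rw [hval u v huv]
    have := hc.lt u v huv
    split_ifs with h
    · have := h.2; omega
    · exact this
  · intro u v w huv huw hvw
    rw [hval u v huv, hval u w huw]
    have e1 := hc.lt u v huv
    have e2 := hc.lt u w huw
    have e3 := hc.proper u v w huv huw hvw
    by_cases hK : K u
    · by_cases h1 : c s(u, v) ≠ j <;> by_cases h2 : c s(u, w) ≠ j <;>
        simp only [hK, h1, h2, true_and, if_true, if_false, ne_eq,
          not_false_eq_true] <;> omega
    · simp only [hK, false_and, if_false]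
      exact e3
  · funext k
    by_cases hk : k < n
    · have hadj := off_f hf k
      have e0 : W n q f c' k = c' s(q k, f k) := by unfold W; rw [if_pos hk]
      have e1 : c s(q k, f k) = W n q f c k := by unfold W; rw [if_pos hk]
      rw [e0, hval _ _ hadj, e1]
      have hmi := hm i hi hW
      by_cases hWk : W n q f c k = j
      · rw [if_neg (fun h => h.2 hWk)]
        unfold SC.sw
        have n1 : (k == i) = false := by
          rw [beq_eq_false_iff_ne]
          rintro rfl
          exact hW hWk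
        have n2 : (k == m i) = false := by
          rw [beq_eq_false_iff_ne]
          rintro rfl
          exact hmi.2.1 hWk
        rw [n1, n2]
        rfl
      · by_cases hK : K (q k)
        · rw [if_pos ⟨hK, hWk⟩]
          unfold SC.sw
          have : (k == i || k == m i) = true := by
            rw [Bool.or_eq_true, beq_iff_eq, beq_iff_eq]
            exact (hr i hi hW).2 k hk hWk hK
          rw [this]
          rfl
        · rw [if_neg (fun h => hK h.1)]
          unfold SC.sw
          have : (k == i || k == m i) = false := by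
            rw [Bool.or_eq_false_iff, beq_eq_false_iff_ne, beq_eq_false_iff_ne]
            constructor
            · rintro rfl
              exact hK (SimpleGraph.Reachable.refl _)
            · rintro rfl
              exact hK (hr i hi hW).1
          rw [this]
          rfl
    · have e0 : W n q f c' k = 0 := by unfold W; rw [if_neg hk]
      have e1 : W n q f c k = 0 := by unfold W; rw [if_neg hk]
      rw [e0]
      unfold SC.sw
      have hmi := hm i hi hW
      have n1 : (k == i) = false := by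
        rw [beq_eq_false_iff_ne]
        rintro rfl
        exact hk hi
      have n2 : (k == m i) = false := by
        rw [beq_eq_false_iff_ne]
        rintro rfl
        exact hk hmi.1
      rw [n1, n2]
      exact e1.symm

end

end Pool.Agent.TH505.SC
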