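import Pool.Agent.TH505.SC.Main

set_option autoImplicit false

/-!
The statement in terms of walks.
-/

namespace Pool.Agent.TH505.SC

open Finset
open Pool.Agent.TH505.OCDC

variable {V : Type}

/-- a cycle of Mathlib as a periodic function -/
lemma circ_of_cycle {G : SimpleGraph V} {x : V} {Q : G.Walk x x} (hQ : Q.IsCycle) :
    Circ G Q.length (fun i => Q.getVert (i % Q.length)) := by
  have h3 := hQ.three_le_length
  refine ⟨h3, ?_, ?_, ?_⟩
  · intro i
    simp
  · intro i j hi hj h
    simp only [Nat.mod_eq_of_lt hi, Nat.mod_eq_of_lt hj] at h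
    exact hQ.getVert_injOn' (by simp only [Set.mem_ofPred_eq]; omega)
      (by simp only [Set.mem_ofPred_eq]; omega) h
  · intro i
    show G.Adj (Q.getVert (i % Q.length)) (Q.getVert ((i + 1) % Q.length))
    have hlt : i % Q.length < Q.length := Nat.mod_lt _ (by omega)
    have h1 := Q.adj_getVert_succ hlt
    rcases Nat.lt_or_ge (i % Q.length + 1) Q.length with h | h
    · have : (i + 1) % Q.length = i % Q.length + 1 := by
        rw [Nat.add_mod, Nat.mod_eq_of_lt (show 1 < Q.length by omega), Nat.mod_eq_of_lt h]
      rw [this]; exact h1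
    · have h2 : i % Q.length + 1 = Q.length := by omega
      have : (i + 1) % Q.length = 0 := by
        rw [Nat.add_mod, Nat.mod_eq_of_lt (show 1 < Q.length by omega), h2, Nat.mod_self]
      rw [this, SimpleGraph.Walk.getVert_zero]
      rw [h2, SimpleGraph.Walk.getVert_length] at h1
      exact h1

open scoped Classical in
/-- number of darts of a walk leaving `v` -/
noncomputable def lv {G : SimpleGraph V} {x y : V} (p : G.Walk x y) (v : V) : ℕ :=
  (p.darts.filter (fun d => decide (d.fst = v))).length

lemma lv_eq [Fintype V] {G : SimpleGraph V} {x y : V} (p : G.Walk x y) (v : V) :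
    lv p v = ∑ w, dc p v w := by
  classical
  induction p with
  | nil => simp [lv, dc_nil]
  | @cons a b c h p ih =>
    have h0 : lv (SimpleGraph.Walk.cons h p) v = (if a = v then 1 else 0) + lv p v := by
      unfold lv
      rw [SimpleGraph.Walk.darts_cons, List.filter_cons]
      by_cases hx : a = v
      · rw [if_pos (by simpa using hx), if_pos hx, List.length_cons]
        omega
      · rw [if_neg (by simpa using hx), if_neg hx]
        omega
    simp only [dc_cons, Finset.sum_add_distrib]
    have h1 : ∑ w, (if a = v ∧ b = w then (1 : ℕ) else 0) = if a = v then 1 else 0 := by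
      by_cases hx : a = v
      · simp [hx]
      · simp [hx]
    rw [h0, h1, ih]

lemma sum_lv [Fintype V] {G : SimpleGraph V} (C : List (Σ v : V, G.Walk v v)) (v : V) :
    (C.map (fun c => lv c.2 v)).sum = ∑ w, tot C v w := by
  induction C with
  | nil => simp [tot]
  | cons c C ih =>
    simp only [tot_cons, Finset.sum_add_distrib]
    rw [List.map_cons, List.sum_cons, ih, lv_eq]

/-- in a cubic graph a conservative function with values in `{-1, 0, 1}` leaves every vertex at
most once -/
lemma out_le_one [Fintype V] {G : SimpleGraph V} (g : V → V → ℤ) {v : V}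
    (h3 : (nb G v).card = 3) (hcons : ∑ w, g v w = 0)
    (hval : ∀ w, g v w = 0 ∨ g v w = 1 ∨ g v w = -1) (hz : ∀ w, ¬ G.Adj v w → g v w = 0) :
    ∑ w, ind (g v w = 1) ≤ 1 := by
  classical
  have h1 : ∑ w, (ind (g v w = 1) : ℤ) = ∑ w, (ind (g v w = -1) : ℤ) := by
    rw [← sub_eq_zero, ← Finset.sum_sub_distrib, ← hcons]
    apply Finset.sum_congr rfl
    intro w _
    rcases hval w with h | h | h
    · rw [h, ind_neg (by norm_num), ind_neg (by norm_num)]; norm_num
    · rw [h, ind_pos rfl, ind_neg (by norm_num)]; norm_num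
    · rw [h, ind_neg (by norm_num), ind_pos rfl]; norm_num
  have h2 : ∑ w, (ind (g v w = 1) + ind (g v w = -1)) ≤ ∑ w, ind (G.Adj v w) := by
    apply Finset.sum_le_sum
    intro w _
    by_cases ha : G.Adj v w
    · rw [ind_pos ha]
      rcases hval w with h | h | h
      · rw [h, ind_neg (by norm_num), ind_neg (by norm_num)]; norm_num
      · rw [h, ind_pos rfl, ind_neg (by norm_num)]
      · rw [h, ind_neg (by norm_num), ind_pos rfl]
    · rw [hz w ha, ind_neg (by norm_num), ind_neg (by norm_num)]
      exact Nat.zero_le _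
  rw [sum_ind_eq_card, h3, Finset.sum_add_distrib] at h2
  have h4 : (∑ w, ind (g v w = 1)) = ∑ w, ind (g v w = -1) := by exact_mod_cast h1
  omega

/-- Five families of disjoint directed cycles. -/
theorem Five.families [Fintype V] {G : SimpleGraph V} (h3 : ∀ v, (nb G v).card = 3)
    {g : Fin 5 → V → V → ℤ} (h : Five G g) :
    ∃ C : Fin 5 → List (Σ v : V, G.Walk v v), (∀ i, ∀ c ∈ C i, c.2.IsCycle) ∧
      (∀ i v, ((C i).map (fun c => lv c.2 v)).sum ≤ 1) ∧
      ∀ u v, G.Adj u v → ∑ i, tot (C i) u v = 1 := by
  obtain ⟨h1, h2, h4, h5, h6⟩ := h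
  have key : ∀ i, ∃ C : List (Σ v : V, G.Walk v v), (∀ c ∈ C, c.2.IsCycle) ∧
      ∀ u v, tot C u v = ind (g i u v = 1) := fun i =>
    flow_decomp (g i) (h1 i) (h4 i) (fun u v hne => by
      by_contra h'
      exact hne (h5 i u v h')) (h2 i)
  choose C hC1 hC2 using key
  refine ⟨C, hC1, ?_, ?_⟩
  · intro i v
    rw [sum_lv, Finset.sum_congr rfl (fun w _ => hC2 i v w)]
    exact out_le_one (g i) (h3 v) (h2 i v) (fun w => h4 i v w) (fun w => h5 i v w)
  · intro u v huv
    rw [Finset.sum_congr rfl (fun i _ => hC2 i u v)]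
    obtain ⟨i, hi1, hi2⟩ := h6 u v huv
    rw [Finset.sum_eq_single i]
    · exact ind_pos hi1
    · intro k _ hk
      exact ind_neg (fun h' => hk (hi2 k h'))
    · intro h'; exact absurd (mem_univ _) h'

open scoped Classical in
/-- Conflicts on a short circuit. -/
theorem conflicts [Fintype V] (G : SimpleGraph V) (h3 : ∀ v, (G.neighborSet v).ncard = 3)
    (x : V) (Q : G.Walk x x) (hQ : Q.IsCycle) (h6 : Q.length ≤ 6) (c : Sym2 V → Fin 3)
    (hc : ∀ v, v ∉ Q.support → ∀ y z, G.Adj v y → G.Adj v z → y ≠ z → c s(v, y) ≠ c s(v, z)) :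
    ∃ C : Fin 5 → List (Σ v : V, G.Walk v v), (∀ i, ∀ c ∈ C i, c.2.IsCycle) ∧
      (∀ i v, ((C i).map (fun c =>
        (c.2.darts.filter (fun d => decide (d.fst = v))).length)).sum ≤ 1) ∧
      ∀ u v, G.Adj u v → ∑ i, ((C i).map (fun c =>
        (c.2.darts.filter (fun d => decide (d.toProd = (u, v)))).length)).sum = 1 := by
  have hnb : ∀ v, (nb G v).card = 3 := by
    intro v
    rw [← h3 v, Set.ncard_eq_toFinset_card', ← SimpleGraph.neighborFinset_def]
    congr 1
    ext w
    rw [mem_nb, SimpleGraph.mem_neighborFinset]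
  have hq := circ_of_cycle hQ
  have hcol : Col (Off G (fun i => Q.getVert (i % Q.length))) (fun e => (c e : ℕ)) := by
    constructor
    · intro u v _
      exact (c s(u, v)).2
    · intro u v w huv huw hvw
      by_cases hu : u ∈ Q.support
      · exfalso
        obtain ⟨i, hi, hi2⟩ := SimpleGraph.Walk.mem_support_iff_exists_getVert.1 hu
        have hpos : 0 < Q.length := by have := hQ.three_le_length; omega
        have hui : u = (fun i => Q.getVert (i % Q.length)) i := by
          rcases Nat.lt_or_ge i Q.length with h | h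
          · simp only [Nat.mod_eq_of_lt h, hi]
          · have : i = Q.length := by omega
            rw [← hi, this]
            simp
        have hone := nb_off_card hq hnb i
        have hui' : Q.getVert (i % Q.length) = u := hui.symm
        rw [hui', Finset.card_eq_one] at hone
        obtain ⟨y, hy⟩ := hone
        rw [← mem_nb, hy, Finset.mem_singleton] at huv huw
        exact hvw (huv.trans huw.symm)
      · intro h
        exact hc u hu v w huv.1 huw.1 hvw (Fin.ext h)
  obtain ⟨g, hg⟩ := short_circuit hq h6 hnb hcol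
  exact hg.families hnb

end Pool.Agent.TH505.SC
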