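import Pool.Agent.TH505.OCDC.Decomp

set_option autoImplicit false

/-!
Finite graphs with all degrees at most two: the leaves come in pairs, and there are unit flows
with prescribed signs at the leaves.
-/

namespace Pool.Agent.TH505.SC

open Finset
open Pool.Agent.TH505.OCDC

variable {V : Type}

open scoped Classical in
/-- the set of neighbours -/
noncomputable def nb [Fintype V] (J : SimpleGraph V) (v : V) : Finset V :=
  univ.filter (fun w => J.Adj v w)

lemma mem_nb [Fintype V] {J : SimpleGraph V} {v w : V} : w ∈ nb J v ↔ J.Adj v w := by
  classical
  simp [nb]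

/-- Leaves of a graph with degrees at most two come in pairs. -/
theorem leaf_pair [Fintype V] (J : SimpleGraph V) (h2 : ∀ v, (nb J v).card ≤ 2) (x : V)
    (hx : (nb J x).card = 1) :
    ∃ y, y ≠ x ∧ (nb J y).card = 1 ∧ J.Reachable x y ∧
      ∀ z, (nb J z).card = 1 → J.Reachable x z → z = x ∨ z = y := by
  classical
  let C := J.connectedComponentMk x
  let T := C.toSimpleGraph
  have hconn : T.Connected := C.connected_toSimpleGraph
  have hdeg : ∀ v : C, T.degree v = (nb J v.1).card := by
    intro v
    rw [← SimpleGraph.card_neighborFinset_eq_degree]
    apply Finset.card_bij (fun w _ => w.1)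
    · intro w hw
      rw [SimpleGraph.mem_neighborFinset] at hw
      rw [mem_nb]
      exact (C.toSimpleGraph_adj v.2 w.2).1 hw
    · intro a _ b _ h
      exact Subtype.ext h
    · intro w hw
      rw [mem_nb] at hw
      have hwC : w ∈ C := by
        have h1 : v.1 ∈ C := v.2
        have h3 : J.connectedComponentMk v.1 = C := (SimpleGraph.ConnectedComponent.mem_supp_iff C v.1).1 h1
        have h4 : J.connectedComponentMk w = J.connectedComponentMk v.1 :=
          SimpleGraph.ConnectedComponent.sound hw.reachable.symm
        exact (SimpleGraph.ConnectedComponent.mem_supp_iff C w).2 (h4.trans h3)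
      refine ⟨⟨w, hwC⟩, ?_, rfl⟩
      rw [SimpleGraph.mem_neighborFinset]
      exact (C.toSimpleGraph_adj v.2 hwC).2 hw
  let L : Finset C := univ.filter (fun v => T.degree v = 1)
  have hsum := T.sum_degrees_eq_twice_card_edges
  have hcard := hconn.card_vert_le_card_edgeSet_add_one
  have hE : Nat.card T.edgeSet = T.edgeFinset.card := by
    rw [Nat.card_eq_fintype_card, SimpleGraph.edgeFinset_card]
  rw [hE, Nat.card_eq_fintype_card] at hcard
  have hle : ∑ v : C, T.degree v + L.card ≤ 2 * Fintype.card C := by
    have h3 : L.card = ∑ v : C, (if T.degree v = 1 then 1 else 0) := by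
      rw [Finset.card_filter]
    rw [h3, ← Finset.sum_add_distrib]
    calc ∑ v : C, (T.degree v + if T.degree v = 1 then 1 else 0) ≤ ∑ v : C, 2 := by
          apply Finset.sum_le_sum
          intro v _
          have := h2 v.1
          rw [← hdeg v] at this
          split_ifs <;> omega
      _ = 2 * Fintype.card C := by rw [Finset.sum_const, Finset.card_univ, smul_eq_mul, mul_comm]
  have hL2 : L.card ≤ 2 := by omega
  have heven := T.even_card_odd_degree_vertices
  have hLe : L = univ.filter (fun v => Odd (T.degree v)) := by
    apply Finset.filter_congr
    intro v _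
    have := h2 v.1
    rw [← hdeg v] at this
    constructor
    · intro h; rw [h]; exact odd_one
    · intro h
      rcases h with ⟨k, hk⟩
      omega
  rw [← hLe] at heven
  have hxC : x ∈ C := (SimpleGraph.ConnectedComponent.mem_supp_iff C x).2 rfl
  have hxL : (⟨x, hxC⟩ : C) ∈ L := by
    rw [Finset.mem_filter]
    exact ⟨mem_univ _, by rw [hdeg]; exact hx⟩
  have hLpos : 0 < L.card := Finset.card_pos.2 ⟨_, hxL⟩
  have hL : L.card = 2 := by
    rcases heven with ⟨k, hk⟩
    omega
  obtain ⟨a, b, hab, hLab⟩ := Finset.card_eq_two.1 hL
  -- the other leaf
  have key : ∃ y : C, y ≠ ⟨x, hxC⟩ ∧ L = {⟨x, hxC⟩, y} := by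
    rw [hLab, Finset.mem_insert, Finset.mem_singleton] at hxL
    rcases hxL with h | h
    · exact ⟨b, by rw [h]; exact hab.symm, by rw [h]; exact hLab⟩
    · exact ⟨a, by rw [h]; exact hab, by rw [h, hLab, Finset.pair_comm]⟩
  obtain ⟨y, hyx, hLy⟩ := key
  have hyL : y ∈ L := by rw [hLy]; simp
  have hreach : ∀ z : V, z ∈ C → J.Reachable x z := by
    intro z hz
    have h3 := (SimpleGraph.ConnectedComponent.mem_supp_iff C z).1 hz
    exact (SimpleGraph.ConnectedComponent.exact h3).symm
  refine ⟨y.1, fun h => hyx (Subtype.ext h), ?_, hreach y.1 y.2, ?_⟩
  · rw [← hdeg]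
    exact (Finset.mem_filter.1 hyL).2
  · intro z hz hxz
    have hzC : z ∈ C := by
      apply (SimpleGraph.ConnectedComponent.mem_supp_iff C z).2
      exact SimpleGraph.ConnectedComponent.sound hxz.symm
    have hzL : (⟨z, hzC⟩ : C) ∈ L := by
      rw [Finset.mem_filter]
      exact ⟨mem_univ _, by rw [hdeg]; exact hz⟩
    rw [hLy, Finset.mem_insert, Finset.mem_singleton] at hzL
    rcases hzL with h | h
    · exact Or.inl (congrArg Subtype.val h)
    · exact Or.inr (congrArg Subtype.val h)

lemma sum_ind_eq_card [Fintype V] (J : SimpleGraph V) (v : V) :
    ∑ w, ind (J.Adj v w) = (nb J v).card := by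
  classical
  unfold nb
  rw [Finset.card_filter]
  apply Finset.sum_congr rfl
  intro w _
  by_cases h : J.Adj v w
  · rw [ind_pos h, if_pos h]
  · rw [ind_neg h, if_neg h]

/-- Unit flows with prescribed divergence at the leaves. -/
theorem leaf_flow [Fintype V] : ∀ (n : ℕ) (J : SimpleGraph V) (ε : V → ℤ),
    ∑ v, (nb J v).card = n →
    (∀ v, (ε v = 0 ∧ ((nb J v).card = 0 ∨ (nb J v).card = 2)) ∨
      ((ε v = 1 ∨ ε v = -1) ∧ (nb J v).card = 1)) →
    (∀ K : Finset V, (∀ a b, J.Adj a b → a ∈ K → b ∈ K) → ∑ v ∈ K, ε v = 0) →
    ∃ θ : V → V → ℤ, (∀ u v, θ v u = - θ u v) ∧ (∀ u v, J.Adj u v → θ u v = 1 ∨ θ u v = -1) ∧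
      (∀ u v, ¬ J.Adj u v → θ u v = 0) ∧ ∀ u, ∑ w, θ u w = ε u := by
  classical
  intro n
  induction n using Nat.strong_induction_on with
  | _ n ih =>
    intro J ε hn hdeg hclosed
    by_cases hex : ∃ x, (nb J x).card = 1
    · obtain ⟨x, hx⟩ := hex
      obtain ⟨y, hy⟩ := Finset.card_eq_one.1 hx
      have hxy : J.Adj x y := by rw [← mem_nb, hy]; simp
      have hxy' : ∀ w, J.Adj x w → w = y := by
        intro w hw
        rw [← mem_nb, hy, Finset.mem_singleton] at hw
        exact hw
      have hne : x ≠ y := hxy.ne
      let J' : SimpleGraph V := J.deleteEdges {s(x, y)}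
      have hJ' : ∀ a b, J'.Adj a b ↔ J.Adj a b ∧ ¬ ((a = x ∧ b = y) ∨ (a = y ∧ b = x)) := by
        intro a b
        simp only [J', SimpleGraph.deleteEdges_adj, Set.mem_singleton_iff, Sym2.eq_iff]
      have hnx : nb J' x = ∅ := by
        ext w
        rw [mem_nb, hJ']
        constructor
        · rintro ⟨h1, h2⟩
          exact absurd (Or.inl ⟨rfl, hxy' w h1⟩) h2
        · intro h; simp at h
      have hny : nb J' y = (nb J y).erase x := by
        ext w
        rw [mem_nb, hJ', Finset.mem_erase, mem_nb]
        constructor
        · rintro ⟨h1, h2⟩
          exact ⟨fun h => h2 (Or.inr ⟨rfl, h⟩), h1⟩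
        · rintro ⟨h1, h2⟩
          refine ⟨h2, ?_⟩
          rintro (⟨h3, _⟩ | ⟨_, h3⟩)
          · exact hne h3.symm
          · exact h1 h3
      have hno : ∀ v, v ≠ x → v ≠ y → nb J' v = nb J v := by
        intro v h1 h2
        ext w
        rw [mem_nb, hJ', mem_nb]
        constructor
        · exact fun h => h.1
        · intro h
          refine ⟨h, ?_⟩
          rintro (⟨h3, _⟩ | ⟨h3, _⟩)
          · exact h1 h3
          · exact h2 h3
      have hxny : x ∈ nb J y := by rw [mem_nb]; exact hxy.symm
      have hcy : (nb J' y).card + 1 = (nb J y).card := by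
        rw [hny, Finset.card_erase_of_mem hxny]
        have : 0 < (nb J y).card := Finset.card_pos.2 ⟨_, hxny⟩
        omega
      let ε' : V → ℤ := fun v => if v = x then 0 else if v = y then ε y + ε x else ε v
      have hεx : ε x = 1 ∨ ε x = -1 := by
        rcases hdeg x with ⟨_, h | h⟩ | h
        · omega
        · omega
        · exact h.1
      have hsumlt : ∑ v, (nb J' v).card < n := by
        rw [← hn]
        apply Finset.sum_lt_sum
        · intro v _
          by_cases h1 : v = x
          · rw [h1, hnx]; simp
          · by_cases h2 : v = y
            · rw [h2]; omega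
            · rw [hno v h1 h2]
        · exact ⟨x, mem_univ _, by rw [hnx, hx]; simp⟩
      have hyclosed : (nb J y).card = 1 → ε y + ε x = 0 := by
        intro h1
        have h2 : nb J y = {x} := by
          obtain ⟨z, hz⟩ := Finset.card_eq_one.1 h1
          rw [hz, Finset.mem_singleton] at hxny
          rw [hz, hxny]
        have h3 := hclosed {x, y} (by
          intro a b hab ha
          rw [Finset.mem_insert, Finset.mem_singleton] at ha ⊢
          rcases ha with rfl | rfl
          · exact Or.inr (hxy' b hab)
          · rw [← mem_nb, h2, Finset.mem_singleton] at hab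
            exact Or.inl hab)
        rw [Finset.sum_pair hne] at h3
        rw [add_comm]; exact h3
      obtain ⟨θ, hθ1, hθ2, hθ3, hθ4⟩ := ih _ hsumlt J' ε' rfl (by
        intro v
        by_cases h1 : v = x
        · left
          refine ⟨by simp [ε', h1], Or.inl ?_⟩
          rw [h1, hnx]; simp
        · by_cases h2 : v = y
          · have he : ε' v = ε y + ε x := by simp [ε', h2, hne.symm]
            rw [he, h2]
            rcases hdeg y with ⟨h3, h4 | h4⟩ | ⟨h3, h4⟩
            · omega
            · right
              rw [h3, zero_add]
              exact ⟨hεx, by omega⟩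
            · left
              exact ⟨hyclosed h4, Or.inl (by omega)⟩
          · have he : ε' v = ε v := by simp [ε', h1, h2]
            rw [he, hno v h1 h2]
            exact hdeg v) (by
        intro K hK
        by_cases hyK : y ∈ K
        · have h1 := hclosed (insert x K) (by
            intro a b hab ha
            rw [Finset.mem_insert] at ha ⊢
            by_cases hax : a = x
            · rw [hax] at hab
              rw [hxy' b hab]
              exact Or.inr hyK
            · have haK : a ∈ K := by
                rcases ha with h | h
                · exact absurd h hax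
                · exact h
              by_cases hbx : b = x
              · exact Or.inl hbx
              · right
                apply hK a b _ haK
                rw [hJ']
                refine ⟨hab, ?_⟩
                rintro (⟨h3, _⟩ | ⟨_, h3⟩)
                · exact hax h3
                · exact hbx h3)
          rw [← Finset.insert_erase (Finset.mem_insert_self x K), Finset.sum_insert
            (Finset.notMem_erase _ _)] at h1
          have h2 : (insert x K).erase x = K.erase x := by
            ext w
            simp only [Finset.mem_erase, Finset.mem_insert]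
            tauto
          rw [h2] at h1
          have h3 : ∑ v ∈ K, ε' v = ∑ v ∈ K.erase x, ε' v := by
            symm
            apply Finset.sum_subset (Finset.erase_subset _ _)
            intro v hv1 hv2
            have : v = x := by
              by_contra h
              exact hv2 (Finset.mem_erase.2 ⟨h, hv1⟩)
            simp [ε', this]
          have hyK' : y ∈ K.erase x := Finset.mem_erase.2 ⟨hne.symm, hyK⟩
          have h4 : ∑ v ∈ K.erase x, ε' v = ∑ v ∈ K.erase x, (ε v + if v = y then ε x else 0) := by
            apply Finset.sum_congr rfl
            intro v hv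
            have hvx : v ≠ x := (Finset.mem_erase.1 hv).1
            by_cases hvy : v = y
            · simp [ε', hvy, hne.symm]
            · simp [ε', hvx, hvy]
          rw [h3, h4, Finset.sum_add_distrib, Finset.sum_ite_eq' (K.erase x) y, if_pos hyK']
          linarith
        · have h1 := hclosed (K.erase x) (by
            intro a b hab ha
            rw [Finset.mem_erase] at ha
            have hbx : b ≠ x := by
              intro h
              rw [h] at hab
              have := hxy' a hab.symm
              exact hyK (this ▸ ha.2)
            rw [Finset.mem_erase]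
            refine ⟨hbx, hK a b ?_ ha.2⟩
            rw [hJ']
            refine ⟨hab, ?_⟩
            rintro (⟨h3, _⟩ | ⟨_, h3⟩)
            · exact ha.1 h3
            · exact hbx h3)
          have h3 : ∑ v ∈ K, ε' v = ∑ v ∈ K.erase x, ε' v := by
            symm
            apply Finset.sum_subset (Finset.erase_subset _ _)
            intro v hv1 hv2
            have : v = x := by
              by_contra h
              exact hv2 (Finset.mem_erase.2 ⟨h, hv1⟩)
            simp [ε', this]
          rw [h3, ← h1]
          apply Finset.sum_congr rfl
          intro v hv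
          have hvx : v ≠ x := (Finset.mem_erase.1 hv).1
          have hvy : v ≠ y := fun h => hyK (h ▸ (Finset.mem_erase.1 hv).2)
          simp [ε', hvx, hvy])
      let δ : V → V → ℤ := fun u v =>
        (if u = x then (if v = y then ε x else 0) else 0) -
        (if u = y then (if v = x then ε x else 0) else 0)
      have hδ1 : ∀ u v, δ v u = - δ u v := by
        intro u v
        simp only [δ]
        by_cases h1 : u = x <;> by_cases h2 : v = x <;> by_cases h3 : u = y <;>
          by_cases h4 : v = y <;> simp [h1, h2, h3, h4, hne, hne.symm]
      refine ⟨fun u v => θ u v + δ u v, ?_, ?_, ?_, ?_⟩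
      · intro u v
        show θ v u + δ v u = - (θ u v + δ u v)
        rw [hθ1 u v, hδ1 u v]; ring
      · intro u v huv
        show θ u v + δ u v = 1 ∨ θ u v + δ u v = -1
        by_cases h1 : u = x ∧ v = y
        · have h2 : θ u v = 0 := hθ3 u v (by
            rw [hJ']
            exact fun h => h.2 (Or.inl h1))
          have h3 : δ u v = ε x := by simp [δ, h1.1, h1.2, hne]
          rw [h2, h3, zero_add]
          exact hεx
        · by_cases h2 : u = y ∧ v = x
          · have h3 : θ u v = 0 := hθ3 u v (by
              rw [hJ']
              exact fun h => h.2 (Or.inr h2))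
            have h4 : δ u v = - ε x := by simp [δ, h2.1, h2.2, hne.symm]
            rw [h3, h4, zero_add]
            rcases hεx with h | h <;> rw [h] <;> norm_num
          · have h3 : δ u v = 0 := by
              have e1 : (if u = x then (if v = y then ε x else 0) else 0) = 0 := by
                by_cases h : u = x
                · rw [if_pos h, if_neg (fun h' => h1 ⟨h, h'⟩)]
                · rw [if_neg h]
              have e2 : (if u = y then (if v = x then ε x else 0) else 0) = 0 := by
                by_cases h : u = y
                · rw [if_pos h, if_neg (fun h' => h2 ⟨h, h'⟩)]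
                · rw [if_neg h]
              simp only [δ]
              rw [e1, e2, sub_zero]
            rw [h3, add_zero]
            apply hθ2
            rw [hJ']
            exact ⟨huv, by tauto⟩
      · intro u v huv
        show θ u v + δ u v = 0
        have h3 : θ u v = 0 := hθ3 u v (by
          rw [hJ']
          exact fun h => huv h.1)
        rw [h3, zero_add]
        have e1 : (if u = x then (if v = y then ε x else 0) else 0) = 0 := by
          by_cases h : u = x
          · rw [if_pos h, if_neg]
            intro h'
            exact huv (by rw [h, h']; exact hxy)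
          · rw [if_neg h]
        have e2 : (if u = y then (if v = x then ε x else 0) else 0) = 0 := by
          by_cases h : u = y
          · rw [if_pos h, if_neg]
            intro h'
            exact huv (by rw [h, h']; exact hxy.symm)
          · rw [if_neg h]
        simp only [δ]
        rw [e1, e2, sub_zero]
      · intro u
        show ∑ w, (θ u w + δ u w) = ε u
        rw [Finset.sum_add_distrib, hθ4 u]
        have h3 : ∑ w, δ u w = (if u = x then ε x else 0) - (if u = y then ε x else 0) := by
          simp only [δ]
          rw [Finset.sum_sub_distrib]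
          congr 1
          · by_cases h : u = x
            · simp [h]
            · simp [h]
          · by_cases h : u = y
            · simp [h]
            · simp [h]
        rw [h3]
        by_cases h1 : u = x
        · simp [ε', h1, hne]
        · by_cases h2 : u = y
          · simp [ε', h2, hne.symm]
          · simp [ε', h1, h2]
    · have h0 : ∀ v, ε v = 0 ∧ ((nb J v).card = 0 ∨ (nb J v).card = 2) := by
        intro v
        rcases hdeg v with h | h
        · exact h
        · exact absurd ⟨v, h.2⟩ hex
      obtain ⟨g, hg1, hg2, hg3, hg4⟩ := orient J _ (fun u v => J.Adj u v) rfl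
        (fun _ _ h => h) (fun _ _ h => h.symm) (by
          intro v
          rw [sum_ind_eq_card]
          rcases (h0 v).2 with h | h <;> rw [h] <;> decide)
      exact ⟨g, hg1, hg2, hg3, fun u => by rw [hg4, (h0 u).1]⟩

end Pool.Agent.TH505.SC
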