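import Pool.Agent.TH505.SC.Colour

set_option autoImplicit false

/-!
Orientable five cycle double covers from short circuits.
-/

namespace Pool.Agent.TH505.SC

open Finset
open Pool.Agent.TH505.OCDC

variable {V : Type}

lemma cn_card (a : ℕ → ℕ) (j i : ℕ) : cn a j i = ((range i).filter (fun t => a t ≠ j)).card := by
  induction i with
  | zero => simp [cn]
  | succ i ih =>
    rw [Finset.range_add_one, Finset.filter_insert]
    by_cases h : a i = j
    · rw [if_neg (by simpa using h)]
      simp only [cn]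
      rw [ih]
      have : (a i == j) = true := by simpa using h
      rw [this]
      rfl
    · rw [if_pos h, Finset.card_insert_of_notMem (by simp)]
      simp only [cn]
      rw [ih]
      have : (a i == j) = false := by simpa using h
      rw [this]
      rfl

lemma cn_even {n : ℕ} {a : ℕ → ℕ} {j : ℕ} {m : ℕ → ℕ} (hm : Pairs n a j m) :
    Even (cn a j n) := by
  rw [cn_card, ← ZMod.natCast_eq_zero_iff_even]
  have h := Finset.sum_involution (s := (range n).filter (fun t => a t ≠ j))
    (f := fun _ => (1 : ZMod 2)) (fun i _ => m i) (fun _ _ => by decide)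
    (fun i hi _ => by
      rw [Finset.mem_filter, Finset.mem_range] at hi
      exact (hm i hi.1 hi.2).2.2.1)
    (fun i hi => by
      rw [Finset.mem_filter, Finset.mem_range] at hi ⊢
      exact ⟨(hm i hi.1 hi.2).1, (hm i hi.1 hi.2).2.1⟩)
    (fun i hi => by
      rw [Finset.mem_filter, Finset.mem_range] at hi
      exact (hm i hi.1 hi.2).2.2.2)
  rw [Finset.sum_const, nsmul_eq_mul, mul_one] at h
  exact h

lemma cn_sum (a : ℕ → ℕ) (k : ℕ) (h : ∀ i, i < k → a i < 3) :
    cn a 0 k + cn a 1 k + cn a 2 k = 2 * k := by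
  induction k with
  | zero => rfl
  | succ k ih =>
    have h1 := ih (fun i hi => h i (by omega))
    have h2 := h k (by omega)
    simp only [cn]
    have hcase : a k = 0 ∨ a k = 1 ∨ a k = 2 := by omega
    rcases hcase with h3 | h3 | h3 <;> rw [h3] <;> simp <;> omega

/-- the sign before position `k` -/
def T (σ : ℤ) (a : ℕ → ℕ) (j k : ℕ) : ℤ := σ * (-1) ^ cn a j k

lemma T_pm {σ : ℤ} (hσ : σ = 1 ∨ σ = -1) (a : ℕ → ℕ) (j k : ℕ) :
    T σ a j k = 1 ∨ T σ a j k = -1 := by
  unfold T
  rcases neg_one_pow_eq_or ℤ (cn a j k) with h | h <;> rcases hσ with h' | h' <;> rw [h, h'] <;>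
    norm_num

lemma T_succ_ne {σ : ℤ} {a : ℕ → ℕ} {j k : ℕ} (h : a k ≠ j) : T σ a j (k + 1) = - T σ a j k := by
  unfold T
  simp only [cn]
  have : (a k == j) = false := by simpa using h
  rw [this]
  simp only [cond_false]
  rw [pow_succ]
  ring

lemma T_succ_eq {σ : ℤ} {a : ℕ → ℕ} {j k : ℕ} (h : a k = j) : T σ a j (k + 1) = T σ a j k := by
  unfold T
  simp only [cn]
  have : (a k == j) = true := by simpa using h
  rw [this]
  simp only [cond_true, add_zero]

lemma T_parity {σ : ℤ} {a : ℕ → ℕ} {j k l : ℕ} (h : cn a j k % 2 ≠ cn a j l % 2) :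
    T σ a j k = - T σ a j l := by
  unfold T
  have h1 : cn a j k % 2 = 0 ∨ cn a j k % 2 = 1 := by omega
  rcases h1 with h1 | h1
  · have e1 : Even (cn a j k) := Nat.even_iff.2 h1
    have e2 : Odd (cn a j l) := Nat.odd_iff.2 (by omega)
    rw [e1.neg_one_pow, e2.neg_one_pow]; ring
  · have e1 : Odd (cn a j k) := Nat.odd_iff.2 h1
    have e2 : Even (cn a j l) := Nat.even_iff.2 (by omega)
    rw [e1.neg_one_pow, e2.neg_one_pow]; ring

section
variable [Fintype V] {G : SimpleGraph V} {n : ℕ} {q f : ℕ → V} (hq : Circ G n q)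
  (h3 : ∀ v, (nb G v).card = 3) (hf : ∀ i, nb (Off G q) (q i) = {f i})
include hq h3 hf

/-- One of the three auxiliary flows. -/
theorem aux_flow {c : Sym2 V → ℕ} (hc : Col (Off G q) c) {j : ℕ} (hj : j < 3) {m : ℕ → ℕ}
    (hm : Pairs n (W n q f c) j m)
    (hr : ∀ i, i < n → W n q f c i ≠ j → (Jg (Off G q) c j).Reachable (q i) (q (m i)))
    (he : ∀ i, i < n → W n q f c i ≠ j →
      cn (W n q f c) j (i + 1) % 2 ≠ cn (W n q f c) j (m i + 1) % 2)
    (σ : ℤ) (hσ : σ = 1 ∨ σ = -1) :
    ∃ P : V → V → ℤ, (∀ u v, P v u = - P u v) ∧ (∀ u, ∑ w, P u w = 0) ∧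
      (∀ k, k < n → P (q k) (q (k + 1)) = T σ (W n q f c) j (k + 1)) ∧
      (∀ u v, (Off G q).Adj u v → c s(u, v) ≠ j → P u v = 2 ∨ P u v = -2) ∧
      (∀ u v, (Off G q).Adj u v → c s(u, v) = j → P u v = 0) ∧
      (∀ u v, ¬ G.Adj u v → P u v = 0) := by
  classical
  set a := W n q f c with ha
  let e : ℕ → ℤ := fun i => if a i ≠ j then - T σ a j (i + 1) else 0
  let ε : V → ℤ := fun v => ∑ i ∈ range n, if v = q i then e i else 0
  have hεon : ∀ k, k < n → ε (q k) = e k := by
    intro k hk
    show ∑ i ∈ range n, (if q k = q i then e i else 0) = e k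
    rw [Finset.sum_eq_single k]
    · rw [if_pos rfl]
    · intro i hi hik
      rw [Finset.mem_range] at hi
      rw [if_neg (fun h => hik (hq.inj _ _ hi hk h.symm))]
    · intro h; exact absurd (Finset.mem_range.2 hk) h
  have hεoff : ∀ v, (∀ i, v ≠ q i) → ε v = 0 := by
    intro v hv
    apply Finset.sum_eq_zero
    intro i _
    rw [if_neg (hv i)]
  have hdeg : ∀ v, (ε v = 0 ∧ ((nb (Jg (Off G q) c j) v).card = 0 ∨
      (nb (Jg (Off G q) c j) v).card = 2)) ∨
      ((ε v = 1 ∨ ε v = -1) ∧ (nb (Jg (Off G q) c j) v).card = 1) := by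
    intro v
    rcases deg_cases h3 hf hc hj v hq with ⟨h1, h2⟩ | ⟨i, hi, hv, ⟨h1, h2⟩ | ⟨h1, h2⟩⟩
    · exact Or.inl ⟨hεoff v h1, Or.inr h2⟩
    · right
      refine ⟨?_, h2⟩
      rw [hv, hεon i hi]
      have : e i = - T σ a j (i + 1) := if_pos h1
      rw [this]
      rcases T_pm hσ a j (i + 1) with h | h <;> rw [h] <;> norm_num
    · left
      refine ⟨?_, Or.inl h2⟩
      rw [hv, hεon i hi]
      exact if_neg (fun h => h h1)
  have hclosed : ∀ K : Finset V, (∀ x y, (Jg (Off G q) c j).Adj x y → x ∈ K → y ∈ K) →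
      ∑ v ∈ K, ε v = 0 := by
    intro K hK
    have hKr : ∀ x y, (Jg (Off G q) c j).Reachable x y → x ∈ K → y ∈ K := by
      intro x y hxy
      obtain ⟨p⟩ := hxy
      induction p with
      | nil => exact fun h => h
      | cons h _ ih => exact fun hx => ih (hK _ _ h hx)
    show ∑ v ∈ K, ∑ i ∈ range n, (if v = q i then e i else 0) = 0
    rw [Finset.sum_comm]
    have h1 : ∀ i ∈ range n, ∑ v ∈ K, (if v = q i then e i else 0) =
        if q i ∈ K ∧ a i ≠ j then - T σ a j (i + 1) else 0 := by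
      intro i _
      rw [Finset.sum_ite_eq' K (q i)]
      by_cases h2 : q i ∈ K
      · rw [if_pos h2]
        by_cases h4 : a i ≠ j
        · rw [if_pos ⟨h2, h4⟩]; exact if_pos h4
        · rw [if_neg (fun h => h4 h.2)]; exact if_neg h4
      · rw [if_neg h2, if_neg (fun h => h2 h.1)]
    rw [Finset.sum_congr rfl h1, ← Finset.sum_filter]
    apply Finset.sum_involution (fun i _ => m i)
    · intro i hi
      rw [Finset.mem_filter, Finset.mem_range] at hi
      rw [T_parity (he i hi.1 hi.2.2)]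
      ring
    · intro i hi _
      rw [Finset.mem_filter, Finset.mem_range] at hi
      exact (hm i hi.1 hi.2.2).2.2.1
    · intro i hi
      rw [Finset.mem_filter, Finset.mem_range] at hi ⊢
      exact ⟨(hm i hi.1 hi.2.2).1, hKr _ _ (hr i hi.1 hi.2.2) hi.2.1, (hm i hi.1 hi.2.2).2.1⟩
    · intro i hi
      rw [Finset.mem_filter, Finset.mem_range] at hi
      exact (hm i hi.1 hi.2.2).2.2.2
  obtain ⟨θ, t1, t2, t3, t4⟩ := leaf_flow _ (Jg (Off G q) c j) ε rfl hdeg hclosed
  refine ⟨fun u v => cf n q (fun i => T σ a j (i + 1)) u v + 2 * θ u v, ?_, ?_, ?_, ?_, ?_, ?_⟩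
  · intro u v
    show cf n q (fun i => T σ a j (i + 1)) v u + 2 * θ v u = _
    rw [cf_anti, t1 u v]; ring
  · intro u
    show ∑ w, (cf n q (fun i => T σ a j (i + 1)) u w + 2 * θ u w) = 0
    rw [Finset.sum_add_distrib, ← Finset.mul_sum, t4 u]
    by_cases h : ∃ i, u = q i
    · obtain ⟨i, hi⟩ := h
      have hi' : u = q (i % n) := by rw [hi]; exact hq.q_mod i
      have hk : i % n < n := Nat.mod_lt _ hq.pos
      set k := i % n with hkdef
      rw [hi', cf_sum hq _ hk, hεon k hk]
      have hprev : T σ a j (pv n k + 1) = T σ a j k := by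
        unfold pv
        split_ifs with h0
        · rw [h0, show n - 1 + 1 = n by omega]
          unfold T
          rw [(cn_even hm).neg_one_pow]
          simp [cn]
        · rw [show k - 1 + 1 = k by omega]
      rw [hprev]
      by_cases h4 : a k = j
      · have : e k = 0 := if_neg (fun h => h h4)
        rw [this, T_succ_eq h4]; ring
      · have : e k = - T σ a j (k + 1) := if_pos h4
        rw [this, T_succ_ne h4]; ring
    · push Not at h
      rw [cf_sum_off _ h, hεoff u h]; ring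
  · intro k hk
    show cf n q (fun i => T σ a j (i + 1)) (q k) (q (k + 1)) + 2 * θ (q k) (q (k + 1)) = _
    rw [cf_val hq _ hk, t3, mul_zero, add_zero]
    intro h
    exact h.1.2 ⟨k, Or.inl ⟨rfl, rfl⟩⟩
  · intro u v huv hcj
    show cf n q (fun i => T σ a j (i + 1)) u v + 2 * θ u v = 2 ∨
      cf n q (fun i => T σ a j (i + 1)) u v + 2 * θ u v = -2
    rw [cf_zero huv.2]
    rcases t2 u v ⟨huv, hcj⟩ with h | h <;> rw [h] <;> norm_num
  · intro u v huv hcj
    show cf n q (fun i => T σ a j (i + 1)) u v + 2 * θ u v = 0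
    rw [cf_zero huv.2, t3 u v (fun h => h.2 hcj)]; norm_num
  · intro u v huv
    show cf n q (fun i => T σ a j (i + 1)) u v + 2 * θ u v = 0
    rw [cf_zero, t3 u v (fun h => huv h.1.1)]
    · norm_num
    · intro h
      obtain ⟨k, _, ⟨h1, h2⟩ | ⟨h1, h2⟩⟩ := hq.ce_cases h
      · apply huv; rw [h1, h2]; exact hq.adj k
      · apply huv; rw [h1, h2]; exact (hq.adj k).symm

/-- The case of alternating pairings. -/
theorem concl_even {c : Sym2 V → ℕ} (hc : Col (Off G q) c) (m : ℕ → ℕ → ℕ)
    (hm : ∀ j, j < 3 → Pairs n (W n q f c) j (m j))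
    (hr : ∀ j, j < 3 → ∀ i, i < n → W n q f c i ≠ j →
      (Jg (Off G q) c j).Reachable (q i) (q (m j i)))
    (he : EvenAll n (W n q f c) m) : ∃ g, Five G g := by
  set a := W n q f c with ha
  obtain ⟨P0, a0, s0, k0, b0, z0, w0⟩ := aux_flow hq h3 hf hc (j := 0) (by norm_num) (hm 0 (by norm_num))
    (hr 0 (by norm_num)) (he 0 (by norm_num)) (-1) (Or.inr rfl)
  obtain ⟨P1, a1, s1, k1, b1, z1, w1⟩ := aux_flow hq h3 hf hc (j := 1) (by norm_num) (hm 1 (by norm_num))
    (hr 1 (by norm_num)) (he 1 (by norm_num)) 1 (Or.inl rfl)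
  obtain ⟨P2, a2, s2, k2, b2, z2, w2⟩ := aux_flow hq h3 hf hc (j := 2) (by norm_num) (hm 2 (by norm_num))
    (hr 2 (by norm_num)) (he 2 (by norm_num)) 1 (Or.inl rfl)
  have hX : ∀ u v, ¬ G.Adj u v → ¬ CE q u v := by
    intro u v huv h
    obtain ⟨k, _, ⟨h1, h2⟩ | ⟨h1, h2⟩⟩ := hq.ce_cases h
    · apply huv; rw [h1, h2]; exact hq.adj k
    · apply huv; rw [h1, h2]; exact (hq.adj k).symm
  refine ⟨_, assemble G (cf n q (fun _ => 1)) P0 P1 P2 (cf_anti n q _) a0 a1 a2 ?_ s0 s1 s2 ?_
    (fun u v huv => ⟨cf_zero (hX u v huv), w0 u v huv, w1 u v huv, w2 u v huv⟩)⟩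
  · intro u
    by_cases h : ∃ i, u = q i
    · obtain ⟨i, hi⟩ := h
      have hi' : u = q (i % n) := by rw [hi]; exact hq.q_mod i
      have hk : i % n < n := Nat.mod_lt _ hq.pos
      rw [hi', cf_sum hq _ hk, sub_self]
    · push Not at h
      exact cf_sum_off _ h
  · intro u v huv
    by_cases hce : CE q u v
    · left
      obtain ⟨k, hk, h⟩ := hq.ce_cases hce
      have hsum := cn_sum a (k + 1) (fun i hi => (W_word hf hc).1 i (by omega))
      have hprod : ((-1 : ℤ) ^ cn a 0 (k + 1)) * ((-1) ^ cn a 1 (k + 1)) *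
          ((-1) ^ cn a 2 (k + 1)) = 1 := by
        rw [← pow_add, ← pow_add, hsum, pow_mul]
        norm_num
      have v0 : P0 (q k) (q (k + 1)) = - (-1) ^ cn a 0 (k + 1) := by
        rw [k0 k hk]; unfold T; ring
      have v1 : P1 (q k) (q (k + 1)) = (-1) ^ cn a 1 (k + 1) := by
        rw [k1 k hk]; unfold T; ring
      have v2 : P2 (q k) (q (k + 1)) = (-1) ^ cn a 2 (k + 1) := by
        rw [k2 k hk]; unfold T; ring
      have vX : cf n q (fun _ => 1) (q k) (q (k + 1)) = 1 := cf_val hq _ hk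
      rcases neg_one_pow_eq_or ℤ (cn a 0 (k + 1)) with e0 | e0 <;>
      rcases neg_one_pow_eq_or ℤ (cn a 1 (k + 1)) with e1 | e1 <;>
      rcases neg_one_pow_eq_or ℤ (cn a 2 (k + 1)) with e2 | e2 <;>
      rw [e0, e1, e2] at hprod <;>
      rw [e0] at v0 <;> rw [e1] at v1 <;> rw [e2] at v2 <;>
      first
      | (exfalso; norm_num at hprod; done)
      | (rcases h with ⟨h1, h2⟩ | ⟨h1, h2⟩
         · rw [h1, h2, v0, v1, v2, vX]; norm_num
         · rw [h1, h2, cf_anti n q _ (q k), a0 (q k), a1 (q k), a2 (q k), v0, v1, v2, vX]; norm_num)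
    · right
      have hoff : (Off G q).Adj u v := ⟨huv, hce⟩
      refine ⟨cf_zero hce, ?_⟩
      have hlt := hc.lt u v hoff
      have hcase : c s(u, v) = 0 ∨ c s(u, v) = 1 ∨ c s(u, v) = 2 := by omega
      rcases hcase with h | h | h
      · exact Or.inl ⟨z0 u v hoff h, b1 u v hoff (by omega), b2 u v hoff (by omega)⟩
      · exact Or.inr (Or.inl ⟨z1 u v hoff h, b0 u v hoff (by omega), b2 u v hoff (by omega)⟩)
      · exact Or.inr (Or.inr ⟨z2 u v hoff h, b0 u v hoff (by omega), b1 u v hoff (by omega)⟩)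

end

lemma run_three {a : ℕ → ℕ} {p i : ℕ} (h : run a p i = 3) (k : ℕ) : run a p (i + k) = 3 := by
  induction k with
  | zero => exact h
  | succ k ih =>
    rw [← Nat.add_assoc]
    simp only [run]
    rw [ih]
    simp

lemma run_spec {a : ℕ → ℕ} {p n : ℕ} (hp : p < 3) (ha : ∀ i, i < n → a i < 3)
    (h : run a p n ≠ 3) : ∀ i, i < n →
      run a p i < 3 ∧ run a p i ≠ a i ∧ run a p (i + 1) = 3 - run a p i - a i := by
  have hne : ∀ i, i ≤ n → run a p i ≠ 3 := by
    intro i hi h'
    apply h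
    have := run_three h' (n - i)
    rwa [show i + (n - i) = n by omega] at this
  have hstep : ∀ i, i < n → run a p i ≠ a i ∧ run a p (i + 1) = 3 - run a p i - a i := by
    intro i hi
    have h1 := hne i (by omega)
    have h2 := hne (i + 1) (by omega)
    simp only [run] at h2 ⊢
    by_cases h4 : run a p i = a i
    · exfalso
      apply h2
      have : (run a p i == a i) = true := by simpa using h4
      rw [this]
      simp
    · have e1 : (run a p i == a i) = false := by simpa using h4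
      have e2 : (run a p i == 3) = false := by simpa using h1
      rw [e1, e2]
      exact ⟨h4, rfl⟩
  intro i
  induction i with
  | zero => exact fun hi => ⟨hp, hstep 0 hi⟩
  | succ i ih =>
    intro hi
    have h1 := ih (by omega)
    have h2 := ha i (by omega)
    refine ⟨?_, hstep _ hi⟩
    rw [h1.2.2]
    omega

lemma ext_spec {n : ℕ} {a : ℕ → ℕ} (h : ext n a = true) : ∃ p, p < 3 ∧ run a p n = p := by
  unfold ext at h
  simp only [Bool.or_eq_true, beq_iff_eq] at h
  rcases h with h | h | h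
  · exact ⟨0, by norm_num, h⟩
  · exact ⟨1, by norm_num, h⟩
  · exact ⟨2, by norm_num, h⟩

section
variable [Fintype V] {G : SimpleGraph V} {n : ℕ} {q f : ℕ → V} (hq : Circ G n q)
  (h3 : ∀ v, (nb G v).card = 3) (hf : ∀ i, nb (Off G q) (q i) = {f i})
include hq h3 hf

open scoped Classical in
/-- The case of an extendable colouring. -/
theorem concl_ext {c : Sym2 V → ℕ} (hc : Col (Off G q) c) (h : ext n (W n q f c) = true) :
    ∃ g, Five G g := by
  obtain ⟨p, hp, hrun⟩ := ext_spec h
  set a := W n q f c with ha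
  have hw : ∀ i, i < n → a i < 3 := (W_word (n := n) hf hc).1
  have hspec := run_spec (n := n) hp hw (by rw [hrun]; omega)
  let b : ℕ → ℕ := fun i => run a p (i + 1)
  have hbprev : ∀ i, i < n → b (pv n i) = run a p i := by
    intro i hi
    show run a p (pv n i + 1) = run a p i
    unfold pv
    split_ifs with h0
    · rw [h0, show n - 1 + 1 = n by omega, hrun]
      rfl
    · rw [show i - 1 + 1 = i by omega]
  let cs : Sym2 V → ℕ := Sym2.lift ⟨fun u v => if CE q u v then cg n q b u v else c s(u, v), by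
    intro u v
    have e1 : CE q u v ↔ CE q v u := ⟨CE.symm, CE.symm⟩
    show (if CE q u v then cg n q b u v else c s(u, v)) =
      (if CE q v u then cg n q b v u else c s(v, u))
    rw [if_congr e1 rfl rfl, cg_symm n q b u v, Sym2.eq_swap]⟩
  have hcs : ∀ u v, cs s(u, v) = if CE q u v then cg n q b u v else c s(u, v) := fun _ _ => rfl
  have hnext : ∀ k, k < n → cs s(q k, q (k + 1)) = b k := by
    intro k hk
    rw [hcs, if_pos ⟨k, Or.inl ⟨rfl, rfl⟩⟩, cg_val hq b hk]
  have hb3 : ∀ k, k < n → b k < 3 := by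
    intro k hk
    have h1 := hspec k hk
    have h2 := hw k hk
    show run a p (k + 1) < 3
    rw [h1.2.2]
    omega
  -- the two circuit neighbours
  have hnb : ∀ i, i < n → ∀ w, CE q (q i) w →
      (w = q (i + 1) ∧ cs s(q i, w) = run a p (i + 1)) ∨
      (w = q (pv n i) ∧ cs s(q i, w) = run a p i) := by
    intro i hi w hw'
    rw [hq.ce_iff] at hw'
    rcases hw' with h1 | h1
    · left
      refine ⟨h1, ?_⟩
      rw [h1, hnext i hi]
    · right
      have h2 : w = q (pv n i) := by
        rw [h1]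
        apply hq.pred_congr
        rw [hq.prev, hq.q_pv hi]
      refine ⟨h2, ?_⟩
      rw [h2, ← hbprev i hi, Sym2.eq_swap]
      have := hnext (pv n i) (hq.pv_lt hi)
      rw [hq.q_pv hi] at this
      exact this
  have hoffcol : ∀ u v, (Off G q).Adj u v → cs s(u, v) = c s(u, v) := by
    intro u v huv
    rw [hcs, if_neg huv.2]
  have hind : ∀ u v, CE q u v → ∃ i, i < n ∧ u = q i := by
    intro u v huv
    obtain ⟨k, hk, ⟨h1, _⟩ | ⟨h1, _⟩⟩ := hq.ce_cases huv
    · exact ⟨k, hk, h1⟩
    · exact ⟨(k + 1) % n, Nat.mod_lt _ hq.pos, by rw [h1]; exact hq.q_mod _⟩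
  have hcol : Col G cs := by
    constructor
    · intro u v huv
      by_cases hce : CE q u v
      · obtain ⟨i, hi, rfl⟩ := hind u v hce
        have h1 := hspec i hi
        have h2 := hw i hi
        rcases hnb i hi v hce with ⟨_, h4⟩ | ⟨_, h4⟩
        · rw [h4, h1.2.2]; omega
        · rw [h4]; exact h1.1
      · rw [hoffcol u v ⟨huv, hce⟩]
        exact hc.lt u v ⟨huv, hce⟩
    · intro u v w huv huw hvw
      by_cases hv : CE q u v
      · obtain ⟨i, hi, rfl⟩ := hind u v hv
        have h1 := hspec i hi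
        have h2 := hw i hi
        by_cases hw' : CE q (q i) w
        · rcases hnb i hi v hv with ⟨g1, g2⟩ | ⟨g1, g2⟩ <;>
            rcases hnb i hi w hw' with ⟨g3, g4⟩ | ⟨g3, g4⟩
          · exact absurd (g1.trans g3.symm) hvw
          · rw [g2, g4, h1.2.2]; omega
          · rw [g2, g4, h1.2.2]; omega
          · exact absurd (g1.trans g3.symm) hvw
        · have hwf : w = f i := off_unique hf ⟨huw, hw'⟩
          have e1 : cs s(q i, w) = a i := by
            rw [hoffcol _ _ ⟨huw, hw'⟩, hwf, ha]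
            unfold W
            rw [if_pos hi]
          rw [e1]
          rcases hnb i hi v hv with ⟨_, g2⟩ | ⟨_, g2⟩
          · rw [g2, h1.2.2]; omega
          · rw [g2]; exact h1.2.1
      · by_cases hw' : CE q u w
        · obtain ⟨i, hi, rfl⟩ := hind u w hw'
          have h1 := hspec i hi
          have h2 := hw i hi
          have hvf : v = f i := off_unique hf ⟨huv, hv⟩
          have e1 : cs s(q i, v) = a i := by
            rw [hoffcol _ _ ⟨huv, hv⟩, hvf, ha]
            unfold W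
            rw [if_pos hi]
          rw [e1]
          rcases hnb i hi w hw' with ⟨_, g2⟩ | ⟨_, g2⟩
          · rw [g2, h1.2.2]; omega
          · rw [g2]; exact fun h' => h1.2.1 h'.symm
        · rw [hoffcol _ _ ⟨huv, hv⟩, hoffcol _ _ ⟨huw, hw'⟩]
          exact hc.proper u v w ⟨huv, hv⟩ ⟨huw, hw'⟩ hvw
  exact class_one h3 hcol

theorem main_win : ∀ (r : ℕ) (c : Sym2 V → ℕ), Col (Off G q) c → Win n r (W n q f c) →
    ∃ g, Five G g := by
  intro r
  induction r with
  | zero => exact fun c hc h => concl_ext hq h3 hf hc h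
  | succ r ih =>
    intro c hc h
    rcases h with h | h
    · exact ih c hc h
    · have hp : ∀ j, ∃ m : ℕ → ℕ, j < 3 → (Pairs n (W n q f c) j m ∧ ∀ i, i < n →
          W n q f c i ≠ j → (Jg (Off G q) c j).Reachable (q i) (q (m i)) ∧
          ∀ k, k < n → W n q f c k ≠ j → (Jg (Off G q) c j).Reachable (q i) (q k) →
            k = i ∨ k = m i) := by
        intro j
        by_cases hj : j < 3
        · obtain ⟨m, hm⟩ := pairing hq h3 hf hc hj
          exact ⟨m, fun _ => hm⟩
        · exact ⟨fun i => i, fun h' => absurd h' hj⟩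
      choose m hm using hp
      rcases h m (fun j hj => (hm j hj).1) with h1 | ⟨j, i, hj, hi, hai, h1⟩
      · exact concl_even hq h3 hf hc m (fun j hj => (hm j hj).1)
          (fun j hj i hi hW => ((hm j hj).2 i hi hW).1) h1
      · obtain ⟨c', hc', hW'⟩ := switch hq h3 hf hc hj (hm j hj).1 (hm j hj).2 hi hai
        apply ih c' hc'
        rw [hW']
        exact h1

end

/-- A cubic graph with a circuit of length at most six off which it is 3-edge-colourable has an
orientable five cycle double cover. -/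
theorem short_circuit [Fintype V] {G : SimpleGraph V} {n : ℕ} {q : ℕ → V} (hq : Circ G n q)
    (h6 : n ≤ 6) (h3 : ∀ v, (nb G v).card = 3) {c : Sym2 V → ℕ} (hc : Col (Off G q) c) :
    ∃ g, Five G g := by
  have hf : ∀ i, ∃ w, nb (Off G q) (q i) = {w} := fun i =>
    Finset.card_eq_one.1 (nb_off_card hq h3 i)
  choose f hf using hf
  exact main_win hq h3 hf 2 c hc (words_win hq.three h6 (W_word hf hc))

end Pool.Agent.TH505.SC
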