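import Mathlib

set_option autoImplicit false

/-!
The finite part: colour words around a circuit of length at most six.
-/

namespace Pool.Agent.TH505.SC

/-- state after `i` steps of the colouring of the circuit, `3` stands for failure -/
def run (a : ℕ → ℕ) (p : ℕ) : ℕ → ℕ
  | 0 => p
  | i + 1 => bif (run a p i == 3 || run a p i == a i) then 3 else 3 - run a p i - a i

/-- the word extends to a proper colouring of the circuit -/
def ext (n : ℕ) (a : ℕ → ℕ) : Bool :=
  run a 0 n == 0 || (run a 1 n == 1 || run a 2 n == 2)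

/-- the word after a switch at the positions `t` and `u` -/
def sw (a : ℕ → ℕ) (j t u : ℕ) : ℕ → ℕ :=
  fun x => bif (x == t || x == u) then 3 - j - a x else a x

/-- number of positions `t < i` with colour different from `j` -/
def cn (a : ℕ → ℕ) (j : ℕ) : ℕ → ℕ
  | 0 => 0
  | i + 1 => cn a j i + (bif a i == j then 0 else 1)

/-- positions with colour different from `j` -/
def ter (n : ℕ) (a : ℕ → ℕ) (j : ℕ) : List ℕ := (List.range n).filter (fun i => !(a i == j))

/-- all perfect matchings of the list `L` satisfy `P` -/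
def chkM (P : List (ℕ × ℕ) → Bool) : ℕ → List ℕ → List (ℕ × ℕ) → Bool
  | _, [], acc => P acc
  | 0, _ :: _, _ => false
  | f + 1, t :: L, acc => L.all (fun u => chkM P f (L.erase u) ((t, u) :: acc))

lemma chkM_sound (P : List (ℕ × ℕ) → Bool) (m : ℕ → ℕ) : ∀ (f : ℕ) (L : List ℕ)
    (acc : List (ℕ × ℕ)), L.Nodup → (∀ x ∈ L, m x ∈ L ∧ m x ≠ x ∧ m (m x) = x) →
    chkM P f L acc = true →
    ∃ acc', P acc' = true ∧ (∀ p ∈ acc', p ∈ acc ∨ (p.1 ∈ L ∧ p.2 = m p.1)) ∧
      (∀ x ∈ L, (x, m x) ∈ acc' ∨ (m x, x) ∈ acc') ∧ (∀ p ∈ acc, p ∈ acc') := by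
  intro f
  induction f with
  | zero =>
    intro L acc hnd hm h
    cases L with
    | nil =>
      refine ⟨acc, ?_, fun p hp => Or.inl hp, fun x hx => ?_, fun p hp => hp⟩
      · simpa [chkM] using h
      · simp at hx
    | cons t L => simp [chkM] at h
  | succ f ih =>
    intro L acc hnd hm h
    cases L with
    | nil =>
      refine ⟨acc, ?_, fun p hp => Or.inl hp, fun x hx => ?_, fun p hp => hp⟩
      · simpa [chkM] using h
      · simp at hx
    | cons t L =>
      rw [List.nodup_cons] at hnd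
      have ht := hm t List.mem_cons_self
      have hu : m t ∈ L := by
        rcases List.mem_cons.1 ht.1 with h1 | h1
        · exact absurd h1 ht.2.1
        · exact h1
      have h1 : chkM P f (L.erase (m t)) ((t, m t) :: acc) = true := by
        simp only [chkM, List.all_eq_true] at h
        exact h (m t) hu
      have hnd' : (L.erase (m t)).Nodup := hnd.2.erase _
      obtain ⟨acc', ha1, ha2, ha3, ha4⟩ := ih (L.erase (m t)) ((t, m t) :: acc) hnd' (by
        intro x hx
        have hx1 : x ≠ m t ∧ x ∈ L := by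
          rw [hnd.2.mem_erase_iff] at hx
          exact hx
        have h2 := hm x (List.mem_cons_of_mem _ hx1.2)
        refine ⟨?_, h2.2.1, h2.2.2⟩
        rw [hnd.2.mem_erase_iff]
        constructor
        · intro h3
          apply hnd.1
          have : x = t := by rw [← h2.2.2, h3, ht.2.2]
          rw [← this]; exact hx1.2
        · rcases List.mem_cons.1 h2.1 with h3 | h3
          · exfalso
            apply hx1.1
            rw [← h3, h2.2.2]
          · exact h3) h1
      refine ⟨acc', ha1, ?_, ?_, ?_⟩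
      · intro p hp
        rcases ha2 p hp with h2 | h2
        · rcases List.mem_cons.1 h2 with h3 | h3
          · right
            rw [h3]
            exact ⟨List.mem_cons_self, rfl⟩
          · exact Or.inl h3
        · right
          exact ⟨List.mem_cons_of_mem _ (List.mem_of_mem_erase h2.1), h2.2⟩
      · intro x hx
        rcases List.mem_cons.1 hx with h2 | h2
        · left
          rw [h2]
          exact ha4 _ List.mem_cons_self
        · by_cases h3 : x = m t
          · right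
            rw [h3, ht.2.2]
            exact ha4 _ List.mem_cons_self
          · apply ha3
            rw [hnd.2.mem_erase_iff]
            exact ⟨h3, h2⟩
      · intro p hp
        exact ha4 p (List.mem_cons_of_mem _ hp)

def okEven (a : ℕ → ℕ) (j : ℕ) (acc : List (ℕ × ℕ)) : Bool :=
  acc.all (fun p => !(cn a j (p.1 + 1) % 2 == cn a j (p.2 + 1) % 2))

def okSw (R : (ℕ → ℕ) → Bool) (a : ℕ → ℕ) (j : ℕ) (acc : List (ℕ × ℕ)) : Bool :=
  acc.any (fun p => R (sw a j p.1 p.2))

def good (R : (ℕ → ℕ) → Bool) (n : ℕ) (a : ℕ → ℕ) : Bool :=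
  (chkM (okSw R a 0) n (ter n a 0) [] || (chkM (okSw R a 1) n (ter n a 1) [] ||
    chkM (okSw R a 2) n (ter n a 2) [])) ||
  (chkM (fun acc => okSw R a 0 acc || okEven a 0 acc) n (ter n a 0) [] &&
    (chkM (fun acc => okSw R a 1 acc || okEven a 1 acc) n (ter n a 1) [] &&
      chkM (fun acc => okSw R a 2 acc || okEven a 2 acc) n (ter n a 2) []))

/-- `m` pairs the positions with colour different from `j` -/
def Pairs (n : ℕ) (a : ℕ → ℕ) (j : ℕ) (m : ℕ → ℕ) : Prop :=
  ∀ i, i < n → a i ≠ j → m i < n ∧ a (m i) ≠ j ∧ m i ≠ i ∧ m (m i) = i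

lemma mem_ter {n : ℕ} {a : ℕ → ℕ} {j i : ℕ} : i ∈ ter n a j ↔ i < n ∧ a i ≠ j := by
  simp [ter]

lemma ter_nodup (n : ℕ) (a : ℕ → ℕ) (j : ℕ) : (ter n a j).Nodup :=
  List.Nodup.filter _ List.nodup_range

lemma chk_or {R : (ℕ → ℕ) → Bool} {n : ℕ} {a : ℕ → ℕ} {j : ℕ} {m : ℕ → ℕ}
    (hm : Pairs n a j m)
    (h : chkM (fun acc => okSw R a j acc || okEven a j acc) n (ter n a j) [] = true) :
    (∃ i, i < n ∧ a i ≠ j ∧ R (sw a j i (m i)) = true) ∨
    (∀ i, i < n → a i ≠ j → cn a j (i + 1) % 2 ≠ cn a j (m i + 1) % 2) := by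
  obtain ⟨acc', h1, h2, h3, _⟩ := chkM_sound _ m n (ter n a j) [] (ter_nodup n a j) (by
    intro x hx
    rw [mem_ter] at hx
    have := hm x hx.1 hx.2
    exact ⟨mem_ter.2 ⟨this.1, this.2.1⟩, this.2.2.1, this.2.2.2⟩) h
  rw [Bool.or_eq_true] at h1
  rcases h1 with h1 | h1
  · left
    simp only [okSw, List.any_eq_true] at h1
    obtain ⟨p, hp, hR⟩ := h1
    rcases h2 p hp with h4 | h4
    · simp at h4
    · rw [mem_ter] at h4
      refine ⟨p.1, h4.1.1, h4.1.2, ?_⟩
      rw [← h4.2]
      exact hR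
  · right
    simp only [okEven, List.all_eq_true] at h1
    intro i hi hai
    rcases h3 i (mem_ter.2 ⟨hi, hai⟩) with h4 | h4
    · simpa using h1 _ h4
    · have := h1 _ h4
      simp only [Bool.not_eq_true', beq_eq_false_iff_ne] at this
      exact fun h => this h.symm

lemma chk_sw {R : (ℕ → ℕ) → Bool} {n : ℕ} {a : ℕ → ℕ} {j : ℕ} {m : ℕ → ℕ}
    (hm : Pairs n a j m) (h : chkM (okSw R a j) n (ter n a j) [] = true) :
    ∃ i, i < n ∧ a i ≠ j ∧ R (sw a j i (m i)) = true := by
  obtain ⟨acc', h1, h2, _, _⟩ := chkM_sound _ m n (ter n a j) [] (ter_nodup n a j) (by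
    intro x hx
    rw [mem_ter] at hx
    have := hm x hx.1 hx.2
    exact ⟨mem_ter.2 ⟨this.1, this.2.1⟩, this.2.2.1, this.2.2.2⟩) h
  simp only [okSw, List.any_eq_true] at h1
  obtain ⟨p, hp, hR⟩ := h1
  rcases h2 p hp with h4 | h4
  · simp at h4
  · rw [mem_ter] at h4
    refine ⟨p.1, h4.1.1, h4.1.2, ?_⟩
    rw [← h4.2]
    exact hR

/-- all pairings alternate -/
def EvenAll (n : ℕ) (a : ℕ → ℕ) (m : ℕ → ℕ → ℕ) : Prop :=
  ∀ j, j < 3 → ∀ i, i < n → a i ≠ j → cn a j (i + 1) % 2 ≠ cn a j (m j i + 1) % 2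

lemma good_sound {R : (ℕ → ℕ) → Bool} {n : ℕ} {a : ℕ → ℕ} (h : good R n a = true)
    (m : ℕ → ℕ → ℕ) (hm : ∀ j, j < 3 → Pairs n a j (m j)) :
    EvenAll n a m ∨ ∃ j i, j < 3 ∧ i < n ∧ a i ≠ j ∧ R (sw a j i (m j i)) = true := by
  unfold good at h
  simp only [Bool.or_eq_true, Bool.and_eq_true] at h
  rcases h with (h | h | h) | ⟨h0, h1, h2⟩
  · obtain ⟨i, hi⟩ := chk_sw (hm 0 (by norm_num)) h
    exact Or.inr ⟨0, i, by norm_num, hi⟩
  · obtain ⟨i, hi⟩ := chk_sw (hm 1 (by norm_num)) h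
    exact Or.inr ⟨1, i, by norm_num, hi⟩
  · obtain ⟨i, hi⟩ := chk_sw (hm 2 (by norm_num)) h
    exact Or.inr ⟨2, i, by norm_num, hi⟩
  · rcases chk_or (hm 0 (by norm_num)) h0 with ⟨i, hi⟩ | h0
    · exact Or.inr ⟨0, i, by norm_num, hi⟩
    rcases chk_or (hm 1 (by norm_num)) h1 with ⟨i, hi⟩ | h1
    · exact Or.inr ⟨1, i, by norm_num, hi⟩
    rcases chk_or (hm 2 (by norm_num)) h2 with ⟨i, hi⟩ | h2
    · exact Or.inr ⟨2, i, by norm_num, hi⟩
    left
    intro j hj
    interval_cases j
    · exact h0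
    · exact h1
    · exact h2

/-- winning words -/
def Win (n : ℕ) : ℕ → (ℕ → ℕ) → Prop
  | 0, a => ext n a = true
  | r + 1, a => Win n r a ∨ ∀ m : ℕ → ℕ → ℕ, (∀ j, j < 3 → Pairs n a j (m j)) →
      EvenAll n a m ∨ ∃ j i, j < 3 ∧ i < n ∧ a i ≠ j ∧ Win n r (sw a j i (m j i))

/-- all words of length `n` over `{0, 1, 2}` satisfy `P` -/
def allW : ℕ → (List ℕ → Bool) → Bool
  | 0, P => P []
  | n + 1, P => allW n (fun l => P (0 :: l)) && (allW n (fun l => P (1 :: l)) &&
      allW n (fun l => P (2 :: l)))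

lemma allW_sound : ∀ (n : ℕ) (P : List ℕ → Bool), allW n P = true →
    ∀ l : List ℕ, l.length = n → (∀ x ∈ l, x < 3) → P l = true := by
  intro n
  induction n with
  | zero =>
    intro P h l hl _
    rw [List.length_eq_zero_iff] at hl
    rw [hl]
    exact h
  | succ n ih =>
    intro P h l hl hx
    cases l with
    | nil => simp at hl
    | cons x l =>
      simp only [allW, Bool.and_eq_true] at h
      have hl' : l.length = n := by simpa using hl
      have hx' : ∀ y ∈ l, y < 3 := fun y hy => hx y (List.mem_cons_of_mem _ hy)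
      have hx3 := hx x List.mem_cons_self
      interval_cases x
      · exact ih _ h.1 l hl' hx'
      · exact ih _ h.2.1 l hl' hx'
      · exact ih _ h.2.2 l hl' hx'

/-- the function of a word -/
def wf (l : List ℕ) : ℕ → ℕ := fun i => l.getD i 0

/-- the words of rank one -/
def pat (n : ℕ) (a : ℕ → ℕ) : Bool :=
  bif n == 6 then
    ((a 0 == a 3 && (a 1 == a 4 && a 2 == a 5)) && !(a 0 == a 1 && a 1 == a 2)) ||
    ((a 0 == a 1 && (a 2 == a 3 && a 4 == a 5)) || (a 1 == a 2 && (a 3 == a 4 && a 5 == a 0)))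
  else true

def chk1 (n : ℕ) (a : ℕ → ℕ) : Bool := !(pat n a) || (ext n a || good (ext n) n a)

def chk2 (n : ℕ) (a : ℕ → ℕ) : Bool :=
  pat n a || (ext n a || good (fun b => ext n b || pat n b) n a)

end Pool.Agent.TH505.SC
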